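import Pool.Agent.Lib.MP_0e7911_co_h56.SymF

/-!
# Dominance order on Young diagrams
-/

set_option autoImplicit false

namespace Pool.Agent.Lib.MP_0e7911_co_h31

open Finset Pool.Agent.Lib.MP_0e7911_co_h56

/-! ### basic facts -/

theorem ext_rowLen {l μ : YoungDiagram} (h : ∀ i, l.rowLen i = μ.rowLen i) : l = μ := by
  apply YoungDiagram.ext
  ext ⟨i, j⟩
  rw [YoungDiagram.mem_cells, YoungDiagram.mem_cells, YoungDiagram.mem_iff_lt_rowLen,
    YoungDiagram.mem_iff_lt_rowLen, h]

theorem dom_refl (μ : YoungDiagram) : dom μ μ := ⟨rfl, fun _ => le_rfl⟩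

theorem dom_trans {a b c : YoungDiagram} (h : dom a b) (h' : dom b c) : dom a c :=
  ⟨h.1.trans h'.1, fun k => (h'.2 k).trans (h.2 k)⟩

theorem dom_antisymm {l μ : YoungDiagram} (h : dom l μ) (h' : dom μ l) : l = μ := by
  apply ext_rowLen
  have hk : ∀ k, ∑ i ∈ range k, l.rowLen i = ∑ i ∈ range k, μ.rowLen i :=
    fun k => le_antisymm (h'.2 k) (h.2 k)
  intro i
  have h1 := hk (i + 1)
  have h2 := hk i
  rw [Finset.sum_range_succ, Finset.sum_range_succ, h2] at h1
  exact Nat.add_left_cancel h1

/-! ### transposition reverses the dominance order -/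

theorem colLen_zero_le_card (μ : YoungDiagram) : μ.colLen 0 ≤ μ.card := by
  rw [YoungDiagram.colLen_eq_card]
  exact Finset.card_le_card (Finset.filter_subset _ _)

theorem rowLen_eq_zero {μ : YoungDiagram} {i : ℕ} (h : μ.card ≤ i) : μ.rowLen i = 0 := by
  by_contra h0
  have h1 : (i, 0) ∈ μ := YoungDiagram.mem_iff_lt_rowLen.2 (Nat.pos_of_ne_zero h0)
  have h2 := YoungDiagram.mem_iff_lt_colLen.1 h1
  have h3 := colLen_zero_le_card μ
  omega

theorem card_filter_ge (μ : YoungDiagram) (k R : ℕ) (hR : μ.card ≤ R) :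
    (μ.cells.filter (fun c => k ≤ c.2)).card = ∑ i ∈ range R, (μ.rowLen i - k) := by
  rw [Finset.card_eq_sum_card_fiberwise (f := fun c : ℕ × ℕ => c.1) (t := range R)]
  · refine Finset.sum_congr rfl fun i _ => ?_
    have : (μ.cells.filter (fun c => k ≤ c.2)).filter (fun c => c.1 = i) =
        (Finset.Ico k (μ.rowLen i)).map ⟨fun j => (i, j), fun a b h => (Prod.mk.inj h).2⟩ := by
      ext ⟨a, b⟩
      simp only [mem_filter, mem_map, mem_Ico, Function.Embedding.coeFn_mk, Prod.mk.injEq,
        YoungDiagram.mem_cells]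
      constructor
      · rintro ⟨⟨h1, h2⟩, rfl⟩
        exact ⟨b, ⟨h2, YoungDiagram.mem_iff_lt_rowLen.1 h1⟩, rfl, rfl⟩
      · rintro ⟨j, ⟨h1, h2⟩, rfl, rfl⟩
        exact ⟨⟨YoungDiagram.mem_iff_lt_rowLen.2 h2, h1⟩, rfl⟩
    rw [this, card_map, Nat.card_Ico]
  · intro c hc
    have hc' := (Finset.mem_filter.1 hc).1
    rw [YoungDiagram.mem_cells] at hc'
    have h1 : (c.1, 0) ∈ μ := μ.up_left_mem (le_refl c.1) (Nat.zero_le c.2) hc'
    have h2 := YoungDiagram.mem_iff_lt_colLen.1 h1
    have h3 := colLen_zero_le_card μ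
    simp only [coe_range, Set.mem_Iio]
    omega

theorem card_filter_lt (μ : YoungDiagram) (k : ℕ) :
    (μ.cells.filter (fun c => c.2 < k)).card = ∑ j ∈ range k, μ.colLen j := by
  rw [Finset.card_eq_sum_card_fiberwise (f := fun c : ℕ × ℕ => c.2) (t := range k)]
  · refine Finset.sum_congr rfl fun j hj => ?_
    rw [mem_range] at hj
    rw [YoungDiagram.colLen_eq_card]
    congr 1
    ext c
    simp only [mem_filter, YoungDiagram.mem_cells, YoungDiagram.mem_col_iff]
    constructor
    · rintro ⟨⟨h1, _⟩, h3⟩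
      exact ⟨h1, h3⟩
    · rintro ⟨h1, h3⟩
      exact ⟨⟨h1, by omega⟩, h3⟩
  · intro c hc
    have hc' := (Finset.mem_filter.1 hc).2
    simpa using hc'

theorem dom_transpose {l μ : YoungDiagram} (h : dom l μ) : dom μ.transpose l.transpose := by
  have hcard : ∀ ν : YoungDiagram, ν.transpose.card = ν.card := by
    intro ν
    rw [YoungDiagram.card, YoungDiagram.card, YoungDiagram.transpose]
    simp
  refine ⟨by rw [hcard, hcard, h.1], fun k => ?_⟩
  have e1 : ∀ ν : YoungDiagram, ∑ i ∈ range k, ν.transpose.rowLen i =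
      (ν.cells.filter (fun c => c.2 < k)).card := by
    intro ν
    rw [card_filter_lt]
    exact Finset.sum_congr rfl fun i _ => YoungDiagram.rowLen_transpose ν i
  rw [e1, e1]
  have e2 : ∀ ν : YoungDiagram, (ν.cells.filter (fun c => c.2 < k)).card +
      (ν.cells.filter (fun c => k ≤ c.2)).card = ν.card := by
    intro ν
    have := Finset.card_filter_add_card_filter_not (s := ν.cells) (fun c => c.2 < k)
    simpa using this
  have h1 := e2 l
  have h2 := e2 μ
  have h3 : (μ.cells.filter (fun c => k ≤ c.2)).card ≤ (l.cells.filter (fun c => k ≤ c.2)).card := by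
    rw [card_filter_ge μ k μ.card le_rfl, card_filter_ge l k μ.card h.1.le]
    -- the rows of `μ` longer than `k` are the rows `0, ..., r - 1`
    set r := μ.colLen k with hr
    have hrn : r ≤ μ.card := by
      rw [hr, YoungDiagram.colLen_eq_card]
      exact Finset.card_le_card (Finset.filter_subset _ _)
    have h4 : ∑ i ∈ range μ.card, (μ.rowLen i - k) = ∑ i ∈ range r, (μ.rowLen i - k) := by
      symm
      refine Finset.sum_subset (Finset.range_subset_range.2 hrn) fun i _ hi => ?_
      rw [mem_range, not_lt] at hi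
      have : ¬ (i, k) ∈ μ := by
        rw [YoungDiagram.mem_iff_lt_colLen]
        omega
      rw [YoungDiagram.mem_iff_lt_rowLen] at this
      omega
    have h5 : ∑ i ∈ range r, (μ.rowLen i - k) + r * k = ∑ i ∈ range r, μ.rowLen i := by
      have : ∑ i ∈ range r, ((μ.rowLen i - k) + k) = ∑ i ∈ range r, μ.rowLen i := by
        refine Finset.sum_congr rfl fun i hi => ?_
        rw [mem_range] at hi
        have h6 : (i, k) ∈ μ := YoungDiagram.mem_iff_lt_colLen.2 hi
        rw [YoungDiagram.mem_iff_lt_rowLen] at h6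
        omega
      rw [← this, Finset.sum_add_distrib, Finset.sum_const, card_range, smul_eq_mul]
    have h6 : ∑ i ∈ range r, l.rowLen i ≤ ∑ i ∈ range r, (l.rowLen i - k) + r * k := by
      rw [show r * k = ∑ _i ∈ range r, k by rw [Finset.sum_const, card_range, smul_eq_mul],
        ← Finset.sum_add_distrib]
      exact Finset.sum_le_sum fun i _ => by omega
    have h7 : ∑ i ∈ range r, (l.rowLen i - k) ≤ ∑ i ∈ range μ.card, (l.rowLen i - k) :=
      Finset.sum_le_sum_of_subset (Finset.range_subset_range.2 hrn)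
    have h8 := h.2 r
    rw [h4]
    omega
  have h9 := h.1
  omega

/-! ### a rank function -/

/-- the sum of the partial sums -/
def drank (μ : YoungDiagram) : ℕ := ∑ k ∈ range (μ.card + 2), ∑ i ∈ range k, μ.rowLen i

theorem drank_lt {l μ : YoungDiagram} (h : dom l μ) (hne : l ≠ μ) : drank μ < drank l := by
  rw [drank, drank, h.1]
  refine Finset.sum_lt_sum (fun k _ => h.2 k) ?_
  by_contra hcon
  push Not at hcon
  apply hne
  have hk : ∀ k, k < μ.card + 2 → ∑ i ∈ range k, l.rowLen i = ∑ i ∈ range k, μ.rowLen i :=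
    fun k hk => le_antisymm (hcon k (mem_range.2 hk)) (h.2 k)
  apply ext_rowLen
  intro i
  by_cases hi : i < μ.card
  · have h1 := hk (i + 1) (by omega)
    have h2 := hk i (by omega)
    rw [Finset.sum_range_succ, Finset.sum_range_succ, h2] at h1
    exact Nat.add_left_cancel h1
  · rw [rowLen_eq_zero (μ := l) (by rw [h.1]; omega), rowLen_eq_zero (μ := μ) (by omega)]

/-! ### the diagrams with `n` cells -/

theorem finite_diag (n : ℕ) : {μ : YoungDiagram | μ.card = n}.Finite := by
  refine Set.Finite.of_finite_image (f := fun μ : YoungDiagram => μ.cells) ?_ ?_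
  · refine Set.Finite.subset (Finset.finite_toSet (range n ×ˢ range n).powerset) ?_
    rintro _ ⟨μ, hμ, rfl⟩
    simp only [Set.mem_ofPred_eq] at hμ
    rw [Finset.mem_coe, Finset.mem_powerset]
    intro c hc
    rw [YoungDiagram.mem_cells] at hc
    rw [Finset.mem_product, mem_range, mem_range]
    have h1 : (c.1, 0) ∈ μ := μ.up_left_mem (le_refl c.1) (Nat.zero_le c.2) hc
    have h2 : (0, c.2) ∈ μ := μ.up_left_mem (Nat.zero_le c.1) (le_refl c.2) hc
    have h3 := YoungDiagram.mem_iff_lt_colLen.1 h1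
    have h4 := YoungDiagram.mem_iff_lt_rowLen.1 h2
    have h5 := colLen_zero_le_card μ
    have h6 : μ.rowLen 0 ≤ μ.card := by
      rw [YoungDiagram.rowLen_eq_card]
      exact Finset.card_le_card (Finset.filter_subset _ _)
    omega
  · intro μ _ ν _ h
    exact YoungDiagram.ext h

/-- the diagrams with `n` cells -/
noncomputable def diag (n : ℕ) : Finset YoungDiagram := (finite_diag n).toFinset

theorem mem_diag {n : ℕ} {μ : YoungDiagram} : μ ∈ diag n ↔ μ.card = n := by
  rw [diag, Set.Finite.mem_toFinset]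
  rfl

end Pool.Agent.Lib.MP_0e7911_co_h31
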