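import Mathlib

/-!
# Eigenvectors of bounded triangular operators
-/

set_option autoImplicit false

namespace Pool.Agent.Lib.MP_0e7911_co_h31

open Finset

variable {K : Type*} [Field K] {Γ₀ : Type*} [LinearOrderedCommGroupWithZero Γ₀]
variable {V : Type*} [AddCommGroup V] [Module K V] {ι : Type*}

/-- the bounded span of a family -/
def BS (v : Valuation K Γ₀) (s : ι → V) (γ : ι → Γ₀) (B : ι → Prop) : Submodule v.integer V :=
  Submodule.span v.integer {f | ∃ l, B l ∧ ∃ c : K, v c ≤ γ l ∧ f = c • s l}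

theorem BS_sum (v : Valuation K Γ₀) (s : ι → V) (γ : ι → Γ₀) (B : Finset ι) (x : V)
    (hx : x ∈ BS v s γ (fun l => l ∈ B)) :
    ∃ c : ι → K, (∀ l ∈ B, v (c l) ≤ γ l) ∧ x = ∑ l ∈ B, c l • s l := by
  classical
  rw [BS] at hx
  induction hx using Submodule.span_induction with
  | mem x hx =>
    obtain ⟨l, hl, c, hc, rfl⟩ := hx
    refine ⟨fun l' => if l' = l then c else 0, fun l' _ => ?_, ?_⟩
    · dsimp only
      split_ifs with h
      · rw [h]; exact hc
      · rw [map_zero]; exact zero_le
    · rw [Finset.sum_eq_single l]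
      · simp
      · intro l' _ h
        simp [h]
      · intro h
        exact absurd hl h
  | zero => exact ⟨fun _ => 0, fun l _ => by rw [map_zero]; exact zero_le, by simp⟩
  | add x y _ _ hx hy =>
    obtain ⟨c, h1, rfl⟩ := hx
    obtain ⟨d, h2, rfl⟩ := hy
    refine ⟨fun l => c l + d l, fun l hl => (v.map_add _ _).trans (max_le (h1 l hl) (h2 l hl)), ?_⟩
    rw [← Finset.sum_add_distrib]
    exact Finset.sum_congr rfl fun l _ => (add_smul _ _ _).symm
  | smul r x _ hx =>
    obtain ⟨c, h1, rfl⟩ := hx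
    refine ⟨fun l => (r : K) * c l, fun l hl => ?_, ?_⟩
    · rw [map_mul]
      calc v (r : K) * v (c l) ≤ 1 * γ l := mul_le_mul' r.2 (h1 l hl)
        _ = γ l := one_mul _
    · rw [Finset.smul_sum]
      refine Finset.sum_congr rfl fun l _ => ?_
      rw [mul_smul]
      rfl

theorem BS_mono {v : Valuation K Γ₀} {s : ι → V} {γ : ι → Γ₀} {B B' : ι → Prop}
    (h : ∀ l, B l → B' l) : BS v s γ B ≤ BS v s γ B' := by
  refine Submodule.span_mono ?_
  rintro _ ⟨l, hl, c, hc, rfl⟩
  exact ⟨l, h l hl, c, hc, rfl⟩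

theorem BS_smul {v : Valuation K Γ₀} {W : Submodule v.integer V} {r : K} (hr : v r ≤ 1) {x : V}
    (hx : x ∈ W) : r • x ∈ W := W.smul_mem ⟨r, hr⟩ hx

/-- The eigenvector of a bounded triangular operator. -/
theorem elim (v : Valuation K Γ₀) (T : Module.End K V) (e : ι → K) (s : ι → V) (μ : ι)
    (A : Finset ι) (rank : ι → ℕ) (γ : ι → Γ₀)
    (he : ∀ l ∈ A, v (e l - e μ) = γ l) (hγ : ∀ l ∈ A, γ l ≠ 0)
    (h0 : T (s μ) - e μ • s μ ∈ BS v s γ (fun l => l ∈ A))
    (h1 : ∀ ν ∈ A, T (s ν) - e ν • s ν ∈ BS v s γ (fun l => l ∈ A ∧ rank ν < rank l)) :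
    ∃ a : ι → K, (∀ l ∈ A, v (a l) ≤ 1) ∧
      T (s μ + ∑ l ∈ A, a l • s l) = e μ • (s μ + ∑ l ∈ A, a l • s l) := by
  classical
  have key : ∀ r : ℕ, ∃ a : ι → K, (∀ l ∈ A, v (a l) ≤ 1) ∧
      T (s μ + ∑ l ∈ A, a l • s l) - e μ • (s μ + ∑ l ∈ A, a l • s l) ∈
        BS v s γ (fun l => l ∈ A.filter (fun l => r ≤ rank l)) := by
    intro r
    induction r with
    | zero =>
      refine ⟨fun _ => 0, fun l _ => by rw [map_zero]; exact zero_le, ?_⟩
      simp only [zero_smul, Finset.sum_const_zero, add_zero]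
      refine BS_mono (fun l hl => ?_) h0
      rw [mem_filter]
      exact ⟨hl, Nat.zero_le _⟩
    | succ r ih =>
      obtain ⟨a, ha, hx⟩ := ih
      obtain ⟨c, hc, hxc⟩ := BS_sum v s γ _ _ hx
      set R := A.filter (fun l => rank l = r) with hR
      have hne : ∀ l ∈ A, e l - e μ ≠ 0 := by
        intro l hl h
        apply hγ l hl
        rw [← he l hl, h, map_zero]
      have hcR : ∀ l ∈ R, v (c l / (e l - e μ)) ≤ 1 := by
        intro l hl
        rw [hR, mem_filter] at hl
        have h2 := hc l (mem_filter.2 ⟨hl.1, hl.2.symm.le⟩)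
        rw [map_div₀, he l hl.1]
        exact div_le_one_of_le₀ h2 zero_le
      refine ⟨fun l => a l - if rank l = r then c l / (e l - e μ) else 0, fun l hl => ?_, ?_⟩
      · refine (v.map_sub _ _).trans (max_le (ha l hl) ?_)
        split_ifs with h
        · exact hcR l (by rw [hR, mem_filter]; exact ⟨hl, h⟩)
        · rw [map_zero]; exact zero_le
      · have e1 : ∑ l ∈ A, (a l - if rank l = r then c l / (e l - e μ) else 0) • s l =
            ∑ l ∈ A, a l • s l - ∑ l ∈ R, (c l / (e l - e μ)) • s l := by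
          rw [hR, Finset.sum_filter, ← Finset.sum_sub_distrib]
          refine Finset.sum_congr rfl fun l _ => ?_
          rw [sub_smul]
          split_ifs
          · rfl
          · rw [zero_smul]
        have e2 : ∑ l ∈ A.filter (fun l => r ≤ rank l), c l • s l =
            ∑ l ∈ R, c l • s l + ∑ l ∈ A.filter (fun l => r + 1 ≤ rank l), c l • s l := by
          rw [hR, ← Finset.sum_union]
          · refine Finset.sum_congr ?_ fun _ _ => rfl
            ext l
            simp only [mem_filter, mem_union]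
            constructor
            · rintro ⟨h1, h2⟩
              rcases Nat.eq_or_lt_of_le h2 with h3 | h3
              · exact Or.inl ⟨h1, h3.symm⟩
              · exact Or.inr ⟨h1, h3⟩
            · rintro (⟨h1, h2⟩ | ⟨h1, h2⟩)
              · exact ⟨h1, h2.symm.le⟩
              · exact ⟨h1, by omega⟩
          · rw [Finset.disjoint_left]
            intro l h1 h2
            rw [mem_filter] at h1 h2
            omega
        have e3 : T (s μ + ∑ l ∈ A, (a l - if rank l = r then c l / (e l - e μ) else 0) • s l) -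
            e μ • (s μ + ∑ l ∈ A, (a l - if rank l = r then c l / (e l - e μ) else 0) • s l) =
            ∑ l ∈ A.filter (fun l => r + 1 ≤ rank l), c l • s l -
              ∑ l ∈ R, (c l / (e l - e μ)) • (T (s l) - e l • s l) := by
          have e4 : ∑ l ∈ R, c l • s l = ∑ l ∈ R, (c l / (e l - e μ)) • ((e l - e μ) • s l) := by
            refine Finset.sum_congr rfl fun l hl => ?_
            rw [hR, mem_filter] at hl
            rw [smul_smul, div_mul_cancel₀ _ (hne l hl.1)]
          have e5 : T (∑ l ∈ R, (c l / (e l - e μ)) • s l) - e μ • ∑ l ∈ R, (c l / (e l - e μ)) • s l =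
              ∑ l ∈ R, c l • s l + ∑ l ∈ R, (c l / (e l - e μ)) • (T (s l) - e l • s l) := by
            rw [e4, map_sum, Finset.smul_sum, ← Finset.sum_sub_distrib, ← Finset.sum_add_distrib]
            refine Finset.sum_congr rfl fun l _ => ?_
            rw [map_smul, smul_sub, sub_smul, smul_sub, smul_comm (e μ)]
            abel
          rw [e1]
          have e6 : s μ + (∑ l ∈ A, a l • s l - ∑ l ∈ R, (c l / (e l - e μ)) • s l) =
              (s μ + ∑ l ∈ A, a l • s l) - ∑ l ∈ R, (c l / (e l - e μ)) • s l := by abel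
          rw [e6, map_sub, smul_sub]
          have e7 : T (s μ + ∑ l ∈ A, a l • s l) - T (∑ l ∈ R, (c l / (e l - e μ)) • s l) -
              (e μ • (s μ + ∑ l ∈ A, a l • s l) - e μ • ∑ l ∈ R, (c l / (e l - e μ)) • s l) =
              (T (s μ + ∑ l ∈ A, a l • s l) - e μ • (s μ + ∑ l ∈ A, a l • s l)) -
              (T (∑ l ∈ R, (c l / (e l - e μ)) • s l) -
                e μ • ∑ l ∈ R, (c l / (e l - e μ)) • s l) := by abel
          rw [e7, e5, hxc, e2]
          abel
        rw [e3]
        refine Submodule.sub_mem _ (Submodule.sum_mem _ fun l hl => ?_)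
          (Submodule.sum_mem _ fun l hl => ?_)
        · refine Submodule.subset_span ⟨l, hl, c l, hc l ?_, rfl⟩
          rw [mem_filter] at hl ⊢
          exact ⟨hl.1, by omega⟩
        · refine BS_smul (hcR l hl) (BS_mono (fun l' hl' => ?_) (h1 l ?_))
          · rw [hR, mem_filter] at hl
            rw [mem_filter]
            exact ⟨hl'.1, by omega⟩
          · rw [hR, mem_filter] at hl
            exact hl.1
  obtain ⟨a, ha, hx⟩ := key (A.sup rank + 1)
  refine ⟨a, ha, ?_⟩
  obtain ⟨c, -, hxc⟩ := BS_sum v s γ _ _ hx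
  have hempty : A.filter (fun l => A.sup rank + 1 ≤ rank l) = ∅ := by
    rw [Finset.filter_eq_empty_iff]
    intro l hl h
    have := Finset.le_sup (f := rank) hl
    omega
  rw [hempty, Finset.sum_empty] at hxc
  exact sub_eq_zero.1 hxc

end Pool.Agent.Lib.MP_0e7911_co_h31
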