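import Pool.Agent.Lib.MP_0e7911_co_h31.Exist2
import Pool.Agent.Lib.MP_0e7911_co_h31.Exist3
import Pool.Agent.Lib.MP_0e7911_co_h31.Dom

/-!
# Existence of the eigenvectors with nonzero value at `1`
-/

set_option autoImplicit false

namespace Pool.Agent.Lib.MP_0e7911_co_h31.Ex

open Finset Pool.Agent.Lib.MP_0e7911_co_h56 Pool.Agent.Lib.MP_0e7911_co_full
open Polynomial
open IntermediateField.algebraAdjoinAdjoin

variable {K : Type*} [Field K]

/-! ### the valuation -/

theorem exists_val [CharZero K] {q t : K} (hqt : AlgebraicIndependent ℚ ![q, t]) :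
    ∃ B : ValuationSubring K, 1 < B.valuation q ∧
      ∀ P : ℚ[X], P ≠ 0 → B.valuation (aeval t P) = 1 := by
  classical
  -- `q` is transcendental over `F = ℚ(t)`
  set F := IntermediateField.adjoin ℚ ({t} : Set K) with hF
  have himg : (![q, t] '' {1} : Set K) = {t} := by
    rw [Set.image_singleton]
    rfl
  have h1 : Transcendental (Algebra.adjoin ℚ ({t} : Set K)) q := by
    have := hqt.transcendental_adjoin (s := {1}) (i := 0) (by simp)
    rw [himg] at this
    exact this
  have h2 : Transcendental F q := by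
    intro h
    apply h1
    exact (IsFractionRing.isAlgebraic_iff (Algebra.adjoin ℚ ({t} : Set K)) F K (x := q)).2 h
  have h3 : q ≠ 0 := by
    rintro rfl
    exact h2 isAlgebraic_zero
  -- the ring `F[q⁻¹]` and the ideal `(q⁻¹)`
  set A : Subalgebra F K := Algebra.adjoin F {q⁻¹} with hA
  have hqA : q⁻¹ ∈ A := Algebra.subset_adjoin rfl
  set I : Ideal A.toSubring := Ideal.span {⟨q⁻¹, hqA⟩} with hI
  have hItop : I ≠ ⊤ := by
    intro h
    rw [hI, Ideal.span_singleton_eq_top] at h
    obtain ⟨a, ha⟩ := isUnit_iff_exists_inv.1 h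
    have ha1 : q⁻¹ * (a : K) = 1 := congrArg Subtype.val ha
    have ha2 : (a : K) ∈ Algebra.adjoin F {q⁻¹} := a.2
    rw [Algebra.adjoin_singleton_eq_range_aeval] at ha2
    obtain ⟨P, hP⟩ := ha2
    have h4 : IsAlgebraic F q⁻¹ := by
      refine ⟨X * P - 1, ?_, ?_⟩
      · intro h0
        have := congrArg (fun R => R.coeff 0) h0
        simp at this
      · have hP' : aeval q⁻¹ P = (a : K) := hP
        rw [map_sub, map_mul, aeval_X, hP', ha1, map_one, sub_self]
    exact h2 (IsAlgebraic.inv_iff.1 h4)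
  obtain ⟨B, hB1, hB2⟩ := I.image_subset_nonunits_valuationSubring hItop
  refine ⟨B, ?_, ?_⟩
  · have h5 : q⁻¹ ∈ B.nonunits := hB2 ⟨⟨q⁻¹, hqA⟩, Ideal.subset_span rfl, rfl⟩
    rw [ValuationSubring.mem_nonunits_iff, map_inv₀] at h5
    rw [← inv_lt_one₀ ((Valuation.pos_iff _).2 h3)]
    exact h5
  · intro P hP
    have hx : ∀ x : K, x ∈ F → B.valuation x ≤ 1 := by
      intro x hx
      rw [ValuationSubring.valuation_le_one_iff]
      exact hB1 (A.algebraMap_mem ⟨x, hx⟩)
    have hPF : aeval t P ∈ F := by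
      exact (aeval_mem_adjoin_singleton ℚ t (p := P)) |> fun h =>
        IntermediateField.algebra_adjoin_le_adjoin ℚ {t} h
    have hne : aeval t P ≠ 0 := by
      intro h0
      have ht : Transcendental ℚ t := hqt.transcendental 1
      exact hP (by
        by_contra hP0
        exact ht ⟨P, hP0, h0⟩)
    refine le_antisymm (hx _ hPF) ?_
    have := hx _ (F.inv_mem hPF)
    rw [map_inv₀] at this
    exact (inv_le_one₀ ((Valuation.pos_iff _).2 hne)).1 this

/-! ### first differences -/

open Classical in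
/-- the index of the first difference -/
noncomputable def fdi (l μ : YoungDiagram) : ℕ := sInf {i | l.rowLen i ≠ μ.rowLen i}

theorem fdi_lt {l μ : YoungDiagram} {j : ℕ} (h : j < fdi l μ) : l.rowLen j = μ.rowLen j := by
  by_contra h'
  exact absurd (Nat.sInf_le (s := {i | l.rowLen i ≠ μ.rowLen i}) h') (not_le.2 h)

theorem fdi_ne {l μ : YoungDiagram} (h : l ≠ μ) : l.rowLen (fdi l μ) ≠ μ.rowLen (fdi l μ) := by
  refine Nat.sInf_mem (s := {i | l.rowLen i ≠ μ.rowLen i}) ?_
  by_contra h'
  rw [Set.not_nonempty_iff_eq_empty] at h'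
  apply h
  apply ext_rowLen
  intro i
  by_contra hi
  have : i ∈ {i | l.rowLen i ≠ μ.rowLen i} := hi
  rw [h'] at this
  exact this

theorem fdi_eq {l μ : YoungDiagram} {i : ℕ} (h1 : ∀ j, j < i → l.rowLen j = μ.rowLen j)
    (h2 : μ.rowLen i < l.rowLen i) : fdi l μ = i := by
  refine le_antisymm (Nat.sInf_le (s := {i | l.rowLen i ≠ μ.rowLen i}) h2.ne') ?_
  by_contra h
  push Not at h
  exact fdi_ne (l := l) (μ := μ) (fun h' => by rw [h'] at h2; exact lt_irrefl _ h2) (h1 _ h)

theorem fdi_dom {l μ : YoungDiagram} (h : dom l μ) (hne : l ≠ μ) :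
    μ.rowLen (fdi l μ) < l.rowLen (fdi l μ) := by
  have h1 := h.2 (fdi l μ + 1)
  rw [Finset.sum_range_succ, Finset.sum_range_succ] at h1
  have h2 : ∑ i ∈ range (fdi l μ), l.rowLen i = ∑ i ∈ range (fdi l μ), μ.rowLen i :=
    Finset.sum_congr rfl fun i hi => fdi_lt (mem_range.1 hi)
  have h3 := fdi_ne hne
  omega

theorem fdi_mono {l ν μ : YoungDiagram} (h : dom l ν) (h' : dom ν μ) (hne : l ≠ ν) :
    l.rowLen (fdi l ν) ≤ l.rowLen (fdi l μ) := by
  apply l.rowLen_anti
  by_contra hlt
  push Not at hlt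
  -- below `fdi l μ` the rows of `l`, `ν`, `μ` agree
  have h0 : ∀ j, j ≤ fdi l μ → ∑ i ∈ range j, l.rowLen i = ∑ i ∈ range j, μ.rowLen i :=
    fun j hj => Finset.sum_congr rfl fun i hi => fdi_lt (lt_of_lt_of_le (mem_range.1 hi) hj)
  have h1 : ∀ j, j ≤ fdi l μ → ∑ i ∈ range j, l.rowLen i = ∑ i ∈ range j, ν.rowLen i := by
    intro j hj
    refine le_antisymm ?_ (h.2 j)
    rw [h0 j hj]
    exact h'.2 j
  have h2 := h1 (fdi l ν + 1) hlt
  have h3 := h1 (fdi l ν) hlt.le
  rw [Finset.sum_range_succ, Finset.sum_range_succ, h3] at h2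
  exact fdi_ne hne (Nat.add_left_cancel h2)

/-! ### bounded triangularity for diagrams -/

variable {Γ₀ : Type*} [LinearOrderedCommGroupWithZero Γ₀]

/-- `h_ν` of a diagram -/
noncomputable def hd (K : Type*) [Field K] (ν : YoungDiagram) : SymF K := hl K ν.rowLens

/-- the eigenvalue of a diagram -/
noncomputable def eg (q t : K) (ν : YoungDiagram) : K := 1 - (1 - q) * (1 - t) * Bmu q t ν

/-- the bound at the first difference -/
noncomputable def gm (v : Valuation K Γ₀) (q : K) (μ l : YoungDiagram) : Γ₀ :=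
  v q ^ l.rowLen (fdi l μ)

theorem D1_BS [CharZero K] (v : Valuation K Γ₀) {q t : K} (hq : 1 ≤ v q) (ht : v t ≤ 1)
    (ν : YoungDiagram) : D1 q t (hd K ν) - eg q t ν • hd K ν ∈
      BS v (hd K) (gm v q ν) (fun l => dom l ν ∧ l ≠ ν) := by
  have h := D1_W3 hq ht ν.rowLens
  rw [cl_rowLens] at h
  refine Submodule.span_le.2 ?_ h
  rintro _ ⟨τ, c, h1, h2, h3, h4, rfl⟩
  obtain ⟨l, e1, e2, e3, e4⟩ := exists_diag2 (K := K) τ
  obtain ⟨i, f1, f2, f3⟩ := PG_srt v hq _ _ _ h4
  have g1 : ∀ j, j < i → l.rowLen j = ν.rowLen j := by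
    intro j hj
    rw [e4, f1 j hj, rowLens_getD]
  have g2 : ν.rowLen i < l.rowLen i := by
    rw [e4, ← rowLens_getD]
    exact f2
  have g3 : v c ≤ gm v q ν l := by
    rw [gm, fdi_eq g1 g2, e4]
    exact f3
  refine Submodule.subset_span ⟨l, ⟨⟨?_, fun k => ?_⟩, ?_⟩, c, g3, ?_⟩
  · rw [e1, h2, card_eq_sum_rowLens]
  · refine le_trans ?_ (e2 k)
    refine le_trans ?_ (h3 k)
    have : ∑ i ∈ range k, ν.rowLen i = ∑ i ∈ range k, ν.rowLens.getD i 0 :=
      Finset.sum_congr rfl fun i _ => (rowLens_getD ν i).symm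
    rw [this]
    clear this
    generalize ν.rowLens = L
    induction k generalizing L with
    | zero => simp
    | succ k ih =>
      cases L with
      | nil => simp
      | cons a L =>
        rw [Finset.sum_range_succ', List.take_succ_cons, List.sum_cons]
        simp only [List.getD_cons_succ, List.getD_cons_zero]
        have := ih L
        omega
  · intro h'
    rw [h'] at g2
    exact lt_irrefl _ g2
  · rw [e3]
    rfl

/-! ### differences of eigenvalues -/

theorem eg_eq (q t : K) (μ : YoungDiagram) (N : ℕ) (hN : μ.colLen 0 ≤ N) :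
    eg q t μ = 1 - (1 - t) * ∑ i ∈ range N, t ^ i * (1 - q ^ μ.rowLen i) := by
  rw [eg, ← cl_rowLens, cl_eq_sum, YoungDiagram.length_rowLens]
  congr 2
  have h1 : ∑ i ∈ range (μ.colLen 0), t ^ i * (1 - q ^ μ.rowLens.getD i 0) =
      ∑ i ∈ range (μ.colLen 0), t ^ i * (1 - q ^ μ.rowLen i) :=
    Finset.sum_congr rfl fun i _ => by rw [rowLens_getD]
  rw [h1]
  refine Finset.sum_subset (Finset.range_subset_range.2 hN) fun i _ hi => ?_
  rw [mem_range, not_lt] at hi
  have : μ.rowLen i = 0 := by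
    by_contra h0
    have h3 : (i, 0) ∈ μ := YoungDiagram.mem_iff_lt_rowLen.2 (Nat.pos_of_ne_zero h0)
    have h4 := YoungDiagram.mem_iff_lt_colLen.1 h3
    omega
  rw [this, pow_zero, sub_self, mul_zero]

theorem v_eg_sub [CharZero K] (v : Valuation K Γ₀) {q t : K} (hq : 1 < v q)
    (ht : ∀ P : ℚ[X], P ≠ 0 → v (aeval t P) = 1) {l μ : YoungDiagram} (h : dom l μ)
    (hne : l ≠ μ) : v (eg q t l - eg q t μ) = gm v q μ l := by
  classical
  set N := max (l.colLen 0) (μ.colLen 0) + fdi l μ + 1 with hN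
  set i0 := fdi l μ with hi0
  have hlt := fdi_dom h hne
  rw [← hi0] at hlt
  have ht1 : v t = 1 := by
    have := ht X X_ne_zero
    rwa [aeval_X] at this
  rw [eg_eq q t l N (by omega), eg_eq q t μ N (by omega)]
  -- the polynomial
  set S := (range N).filter (fun i => i0 ≤ i ∧ l.rowLen i = l.rowLen i0) with hS
  set P : ℚ[X] := (1 - X) * ∑ i ∈ S, X ^ i with hP
  have hP0 : P ≠ 0 := by
    rw [hP]
    refine mul_ne_zero ?_ ?_
    · intro h0
      have := congrArg (fun R => Polynomial.coeff R 0) h0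
      simp at this
    · intro h0
      have h1 := congrArg (fun R => Polynomial.coeff R i0) h0
      simp only [finsetSum_coeff, coeff_X_pow, coeff_zero] at h1
      rw [Finset.sum_ite_eq, if_pos] at h1
      · exact one_ne_zero h1
      · rw [hS, mem_filter, mem_range]
        exact ⟨by omega, le_rfl, rfl⟩
  set r : ℕ → K := fun i => if i < i0 then 0 else
    ((if l.rowLen i = l.rowLen i0 then 0 else q ^ l.rowLen i) - q ^ μ.rowLen i) with hr
  have e1 : 1 - (1 - t) * ∑ i ∈ range N, t ^ i * (1 - q ^ l.rowLen i) -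
      (1 - (1 - t) * ∑ i ∈ range N, t ^ i * (1 - q ^ μ.rowLen i)) =
      aeval t P * q ^ l.rowLen i0 + (1 - t) * ∑ i ∈ range N, t ^ i * r i := by
    have e2 : aeval t P = (1 - t) * ∑ i ∈ S, t ^ i := by
      rw [hP]
      simp
    have e3 : ∑ i ∈ range N, t ^ i * (1 - q ^ μ.rowLen i) -
        ∑ i ∈ range N, t ^ i * (1 - q ^ l.rowLen i) =
        (∑ i ∈ S, t ^ i) * q ^ l.rowLen i0 + ∑ i ∈ range N, t ^ i * r i := by
      rw [hS, Finset.sum_filter, Finset.sum_mul, ← Finset.sum_sub_distrib,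
        ← Finset.sum_add_distrib]
      refine Finset.sum_congr rfl fun i _ => ?_
      rw [hr]
      dsimp only
      by_cases h1 : i < i0
      · rw [if_pos h1, if_neg (by omega), fdi_lt (l := l) (μ := μ) h1]
        ring
      · rw [if_neg h1]
        by_cases h2 : l.rowLen i = l.rowLen i0
        · rw [if_pos h2, if_pos ⟨by omega, h2⟩, h2]
          ring
        · rw [if_neg h2, if_neg (fun h3 => h2 h3.2)]
          ring
    rw [e2]
    linear_combination (1 - t) * e3
  rw [e1]
  have hX0 : (0 : Γ₀) < v q := lt_trans zero_lt_one hq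
  have hbig : v (aeval t P * q ^ l.rowLen i0) = v q ^ l.rowLen i0 := by
    rw [map_mul, ht P hP0, one_mul, map_pow]
  have hsmall : v ((1 - t) * ∑ i ∈ range N, t ^ i * r i) ≤ v q ^ (l.rowLen i0 - 1) := by
    rw [map_mul]
    have h1 : v (1 - t) ≤ 1 := v_one_sub ht1.le
    have h2 : v (∑ i ∈ range N, t ^ i * r i) ≤ v q ^ (l.rowLen i0 - 1) := by
      refine v.map_sum_le fun i _ => ?_
      rw [map_mul, map_pow, ht1, one_pow, one_mul, hr]
      dsimp only
      split_ifs with h3 h4
      · rw [map_zero]; exact zero_le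
      · rw [zero_sub, Valuation.map_neg, map_pow]
        refine pow_le_pow_right₀ hq.le ?_
        have := μ.rowLen_anti _ _ (not_lt.1 h3)
        omega
      · refine (v.map_sub _ _).trans (max_le ?_ ?_)
        · rw [map_pow]
          refine pow_le_pow_right₀ hq.le ?_
          have := l.rowLen_anti _ _ (not_lt.1 h3)
          omega
        · rw [map_pow]
          refine pow_le_pow_right₀ hq.le ?_
          have := μ.rowLen_anti _ _ (not_lt.1 h3)
          omega
    calc v (1 - t) * v (∑ i ∈ range N, t ^ i * r i) ≤ 1 * v q ^ (l.rowLen i0 - 1) :=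
          mul_le_mul' h1 h2
      _ = _ := one_mul _
  have hlt2 : v ((1 - t) * ∑ i ∈ range N, t ^ i * r i) < v (aeval t P * q ^ l.rowLen i0) := by
    rw [hbig]
    refine lt_of_le_of_lt hsmall (pow_lt_pow_right₀ hq ?_)
    omega
  rw [v.map_add_eq_of_lt_left hlt2, hbig, gm]

/-! ### values at `1 / (1 - q)` -/

/-- `f ↦ f[1/(1-q)]` -/
noncomputable def ev (q : K) : SymF K →ₐ[K] K :=
  MvPolynomial.aeval (fun j : ℕ => (1 - q ^ (j + 1))⁻¹)

/-- the sum of the column numbers -/
def nn (μ : YoungDiagram) : ℕ := ∑ c ∈ μ.cells, (c.2 + 1)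

theorem nn_add_drank (μ : YoungDiagram) :
    nn μ + drank μ.transpose = μ.card * (μ.card + 2) := by
  have hcard : μ.transpose.card = μ.card := by
    rw [YoungDiagram.card, YoungDiagram.card, YoungDiagram.transpose]
    simp
  have h1 : drank μ.transpose = ∑ c ∈ μ.cells, (μ.card + 1 - c.2) := by
    rw [drank, hcard]
    have h2 : ∀ k, ∑ i ∈ range k, μ.transpose.rowLen i = ∑ c ∈ μ.cells, if c.2 < k then 1 else 0 := by
      intro k
      rw [← Finset.card_filter, card_filter_lt]
      exact Finset.sum_congr rfl fun i _ => YoungDiagram.rowLen_transpose μ i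
    rw [Finset.sum_congr rfl fun k _ => h2 k, Finset.sum_comm]
    refine Finset.sum_congr rfl fun c hc => ?_
    rw [← Finset.card_filter]
    have : (range (μ.card + 2)).filter (fun k => c.2 < k) = Finset.Ico (c.2 + 1) (μ.card + 2) := by
      ext k
      simp only [mem_filter, mem_range, mem_Ico]
      omega
    rw [this, Nat.card_Ico]
    omega
  rw [h1, nn, ← Finset.sum_add_distrib]
  have h3 : ∀ c ∈ μ.cells, c.2 + 1 + (μ.card + 1 - c.2) = μ.card + 2 := by
    intro c hc
    rw [YoungDiagram.mem_cells] at hc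
    have h2 : (0, c.2) ∈ μ := μ.up_left_mem (Nat.zero_le c.1) (le_refl c.2) hc
    have h4 := YoungDiagram.mem_iff_lt_rowLen.1 h2
    have h6 : μ.rowLen 0 ≤ μ.card := by
      rw [YoungDiagram.rowLen_eq_card]
      exact Finset.card_le_card (Finset.filter_subset _ _)
    omega
  rw [Finset.sum_congr rfl h3, Finset.sum_const, smul_eq_mul]

theorem nn_lt {l μ : YoungDiagram} (h : dom l μ) (hne : l ≠ μ) : nn μ < nn l := by
  have h1 := nn_add_drank μ
  have h2 := nn_add_drank l
  have h3 : drank l.transpose < drank μ.transpose := by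
    refine drank_lt (dom_transpose h) ?_
    intro h'
    apply hne
    have := congrArg YoungDiagram.transpose h'
    rw [YoungDiagram.transpose_transpose, YoungDiagram.transpose_transpose] at this
    exact this.symm
  rw [h.1] at h2
  omega

theorem et_aeval [CharZero K] (h : ℕ) : MvPolynomial.aeval (fun _ : ℕ => (1 : K)) (et K h) =
    if h = 0 then 1 else if h = 1 then -1 else 0 := by
  have hel : ∀ n, MvPolynomial.aeval (fun _ : ℕ => (1 : K)) (elem K n) = if n ≤ 1 then 1 else 0 := by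
    intro n
    induction n using Nat.strong_induction_on with
    | _ n ih =>
      cases n with
      | zero => rw [elem]; simp
      | succ n =>
        rw [elem, map_mul, map_sum]
        have h1 : ∀ k : Fin (n + 1), MvPolynomial.aeval (fun _ : ℕ => (1 : K))
            ((-1) ^ (k : ℕ) * psum K (k + 1) * elem K (n - k)) =
            (-1) ^ (k : ℕ) * (if n ≤ (k : ℕ) + 1 then 1 else 0) := by
          intro k
          rw [map_mul, map_mul, ih (n - k) (by omega), psum, MvPolynomial.aeval_X, map_pow, map_neg,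
            map_one, mul_one]
          congr 1
          by_cases h2 : n ≤ (k : ℕ) + 1
          · rw [if_pos h2, if_pos (by omega)]
          · rw [if_neg h2, if_neg (by omega)]
        rw [Finset.sum_congr rfl fun k _ => h1 k,
          Fin.sum_univ_eq_sum_range (fun k => (-1 : K) ^ k * (if n ≤ k + 1 then 1 else 0)) (n + 1)]
        cases n with
        | zero => simp
        | succ n =>
          rw [if_neg (by omega)]
          have h3 : ∑ k ∈ range (n + 1 + 1), (-1 : K) ^ k * (if n + 1 ≤ k + 1 then 1 else 0) = 0 := by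
            rw [Finset.sum_range_succ, Finset.sum_range_succ, Finset.sum_eq_zero]
            · rw [if_pos (by omega), if_pos (by omega), pow_succ]
              ring
            · intro k hk
              rw [mem_range] at hk
              rw [if_neg (by omega), mul_zero]
          rw [h3, mul_zero]
  rw [et, map_mul, hel, map_pow, map_neg, map_one]
  rcases Nat.lt_or_ge h 2 with h1 | h1
  · interval_cases h <;> simp
  · rw [if_neg (by omega), if_neg (by omega), if_neg (by omega), mul_zero]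

theorem ev_pleth (q : K) (hq : ∀ k, 0 < k → 1 - q ^ k ≠ 0) (f : SymF K) :
    ev q (pleth (fun k => 1 - q ^ k) f) = MvPolynomial.aeval (fun _ : ℕ => (1 : K)) f := by
  have : (ev q).comp (pleth (fun k => 1 - q ^ k)) = MvPolynomial.aeval (fun _ : ℕ => (1 : K)) := by
    apply MvPolynomial.algHom_ext
    intro j
    rw [AlgHom.comp_apply, pleth, MvPolynomial.aeval_X, map_mul, MvPolynomial.aeval_X, ev,
      MvPolynomial.aeval_X, ← MvPolynomial.algebraMap_eq, AlgHom.commutes]
    exact mul_inv_cancel₀ (hq (j + 1) (Nat.succ_pos j))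
  exact DFunLike.congr_fun this f

theorem ev_homog [CharZero K] (q : K) (hq : ∀ k, 0 < k → 1 - q ^ k ≠ 0) (n : ℕ) :
    ev q (homog K n) = ∏ j ∈ range n, (1 - q ^ (j + 1))⁻¹ := by
  induction n with
  | zero => rw [homog]; simp
  | succ n ih =>
    have h1 := congrArg (ev q) (homog_gam (K := K) q (n + 1))
    rw [map_sum, map_smul, smul_eq_mul] at h1
    have h2 : ∀ i ∈ range (n + 1 + 1), ev q (homog K i * gam q (n + 1 - i)) =
        ev q (homog K i) * (if n + 1 - i = 0 then 1 else if n + 1 - i = 1 then -1 else 0) := by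
      intro i _
      rw [map_mul, gam, ev_pleth q hq, et_aeval]
    rw [Finset.sum_congr rfl h2, Finset.sum_range_succ, Finset.sum_range_succ,
      Finset.sum_eq_zero] at h1
    · rw [Nat.sub_self, if_pos rfl, if_neg (by omega), if_pos (by omega), zero_add, mul_one] at h1
      rw [Finset.prod_range_succ, ← ih]
      have h3 := hq (n + 1) (Nat.succ_pos n)
      field_simp
      linear_combination h1
    · intro i hi
      rw [mem_range] at hi
      rw [if_neg (by omega), if_neg (by omega), mul_zero]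

theorem v_ev_hd [CharZero K] (v : Valuation K Γ₀) {q : K} (hq : 1 < v q)
    (hq' : ∀ k, 0 < k → 1 - q ^ k ≠ 0) (μ : YoungDiagram) :
    v (ev q (hd K μ)) = (v q ^ nn μ)⁻¹ := by
  have h1 : ∀ k, v ((1 - q ^ (k + 1))⁻¹) = (v q ^ (k + 1))⁻¹ := by
    intro k
    rw [map_inv₀]
    congr 1
    have h2 : v (1 : K) < v (q ^ (k + 1)) := by
      rw [map_one, map_pow]
      exact one_lt_pow₀ hq (Nat.succ_ne_zero k)
    rw [sub_eq_add_neg, add_comm, v.map_add_eq_of_lt_left, Valuation.map_neg, map_pow]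
    rw [Valuation.map_neg]
    exact h2
  have h3 : ∀ L : List ℕ, v (ev q (hl K L)) = (L.map (fun m => ∏ j ∈ range m, (v q ^ (j + 1))⁻¹)).prod := by
    intro L
    induction L with
    | nil => rw [hl_nil]; simp
    | cons m L ih =>
      rw [hl_cons, map_mul, map_mul, ih, List.map_cons, List.prod_cons, ev_homog q hq', map_prod]
      congr 1
      exact Finset.prod_congr rfl fun j _ => h1 j
  rw [hd, h3, YoungDiagram.rowLens, List.map_map]
  have h4 : ((List.range (μ.colLen 0)).map
      ((fun m => ∏ j ∈ range m, (v q ^ (j + 1))⁻¹) ∘ μ.rowLen)).prod =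
      ∏ i ∈ range (μ.colLen 0), ∏ j ∈ range (μ.rowLen i), (v q ^ (j + 1))⁻¹ := by
    rw [← List.prod_toFinset _ List.nodup_range, List.toFinset_range]
    rfl
  rw [h4, nn, sum_cells μ (fun c => c.2 + 1)]
  simp only [Finset.prod_inv_distrib, Finset.prod_pow_eq_pow_sum]

/-! ### the eigenvectors -/

theorem one_sub_pow_ne [CharZero K] {q t : K} (hqt : AlgebraicIndependent ℚ ![q, t]) (k : ℕ)
    (hk : 0 < k) : 1 - q ^ k ≠ 0 := by
  intro h
  have h1 : MvPolynomial.aeval ![q, t] (1 - MvPolynomial.X 0 ^ k : MvPolynomial (Fin 2) ℚ) = 0 := by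
    rw [map_sub, map_one, map_pow, MvPolynomial.aeval_X]
    exact h
  have h2 : (1 - MvPolynomial.X 0 ^ k : MvPolynomial (Fin 2) ℚ) = 0 :=
    hqt (by rw [h1, map_zero])
  have h3 := congrArg (MvPolynomial.eval (fun _ => (0 : ℚ))) h2
  simp [hk.ne'] at h3

theorem exists_eig [CharZero K] {q t : K} (hqt : AlgebraicIndependent ℚ ![q, t])
    (μ : YoungDiagram) :
    ∃ w : SymF K, w ∈ Submodule.span K {f | ∃ l, dom l μ ∧ f = hl K l.rowLens} ∧
      D1 q t w = eg q t μ • w ∧ ev q w ≠ 0 := by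
  classical
  obtain ⟨B, hq, ht⟩ := exists_val hqt
  set v := B.valuation with hv
  have hq' : ∀ k, 0 < k → 1 - q ^ k ≠ 0 := one_sub_pow_ne hqt
  have ht1 : v t = 1 := by
    have := ht X X_ne_zero
    rwa [aeval_X] at this
  set A : Finset YoungDiagram := (MP_0e7911_co_h31.diag μ.card).filter (fun l => dom l μ ∧ l ≠ μ) with hA
  have hmem : ∀ l, l ∈ A ↔ dom l μ ∧ l ≠ μ := by
    intro l
    rw [hA, mem_filter, MP_0e7911_co_h31.mem_diag]
    exact ⟨fun h => h.2, fun h => ⟨h.1.1, h⟩⟩
  have hX0 : (0 : _) < v q := lt_trans zero_lt_one hq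
  obtain ⟨a, ha, hw⟩ := elim v (D1 q t) (eg q t) (hd K) μ A drank (gm v q μ)
    (fun l hl' => v_eg_sub v hq ht ((hmem l).1 hl').1 ((hmem l).1 hl').2)
    (fun l _ => (pow_pos hX0 _).ne')
    (by
      refine BS_mono (fun l hl' => (hmem l).2 hl') (D1_BS v hq.le ht1.le μ))
    (fun ν hν => by
      have hν' := (hmem ν).1 hν
      refine Submodule.span_mono ?_ (D1_BS v hq.le ht1.le ν)
      rintro _ ⟨l, ⟨h1, h2⟩, c, hc, rfl⟩
      refine ⟨l, ⟨(hmem l).2 ⟨dom_trans h1 hν'.1, ?_⟩, drank_lt h1 h2⟩, c, hc.trans ?_, rfl⟩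
      · rintro rfl
        exact h2 (dom_antisymm h1 hν'.1)
      · exact pow_le_pow_right₀ hq.le (fdi_mono h1 hν'.1 h2))
  refine ⟨hd K μ + ∑ l ∈ A, a l • hd K l, ?_, hw, ?_⟩
  · refine Submodule.add_mem _ (Submodule.subset_span ⟨μ, dom_refl μ, rfl⟩)
      (Submodule.sum_mem _ fun l hl' => Submodule.smul_mem _ _
        (Submodule.subset_span ⟨l, ((hmem l).1 hl').1, rfl⟩))
  · intro h0
    have hsmall : v (ev q (∑ l ∈ A, a l • hd K l)) < v (ev q (hd K μ)) := by
      rw [map_sum]
      refine v.map_sum_lt ?_ fun l hl' => ?_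
      · rw [v_ev_hd v hq hq']
        exact (inv_pos.2 (pow_pos hX0 _)).ne'
      · rw [map_smul, smul_eq_mul, map_mul, v_ev_hd v hq hq', v_ev_hd v hq hq']
        have h1 : (v q ^ nn l)⁻¹ < (v q ^ nn μ)⁻¹ := by
          rw [inv_lt_inv₀ (pow_pos hX0 _) (pow_pos hX0 _)]
          exact pow_lt_pow_right₀ hq (nn_lt ((hmem l).1 hl').1 ((hmem l).1 hl').2)
        calc v (a l) * (v q ^ nn l)⁻¹ ≤ 1 * (v q ^ nn l)⁻¹ := mul_le_mul' (ha l hl') le_rfl
          _ = (v q ^ nn l)⁻¹ := one_mul _
          _ < _ := h1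
    have h2 : v (ev q (hd K μ + ∑ l ∈ A, a l • hd K l)) = v (ev q (hd K μ)) := by
      rw [map_add]
      exact v.map_add_eq_of_lt_left hsmall
    rw [h0, map_zero, v_ev_hd v hq hq'] at h2
    exact (inv_pos.2 (pow_pos hX0 _)).ne h2

/-- `exists_eig` in explicit form -/
theorem exists_eig_exact [CharZero K] (q t : K) (hqt : AlgebraicIndependent ℚ ![q, t])
    (μ : YoungDiagram) :
    ∃ w : SymF K, w ∈ Submodule.span K {f | ∃ l, dom l μ ∧ f = hl K l.rowLens} ∧
      D1 q t w = (1 - (1 - q) * (1 - t) * Bmu q t μ) • w ∧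
      MvPolynomial.aeval (fun j : ℕ => (1 - q ^ (j + 1))⁻¹) w ≠ 0 := exists_eig hqt μ

end Pool.Agent.Lib.MP_0e7911_co_h31.Ex
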