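import Pool.Agent.Lib.MP_0e7911_co_h56.SymF

/-!
# Linear algebra for the Macdonald operator

Injectivity of `μ ↦ B_μ(q,t)`, the two-sided annihilator argument, and the spanning argument.
-/

set_option autoImplicit false

namespace Pool.Agent.Lib.MP_0e7911_co_h31

open Finset Pool.Agent.Lib.MP_0e7911_co_h56

variable {K : Type*} [Field K]

/-! ### injectivity of `B_μ` -/

theorem Bmu_injective [Algebra ℚ K] {q t : K} (hqt : AlgebraicIndependent ℚ ![q, t]) :
    Function.Injective (Bmu q t) := by
  intro μ ν h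
  -- the polynomial of a diagram
  let P : YoungDiagram → MvPolynomial (Fin 2) ℚ := fun μ =>
    ∑ c ∈ μ.cells, MvPolynomial.monomial (Finsupp.single 0 c.2 + Finsupp.single 1 c.1) 1
  have hP : ∀ μ : YoungDiagram, MvPolynomial.aeval ![q, t] (P μ) = Bmu q t μ := by
    intro μ
    rw [map_sum, Bmu]
    refine Finset.sum_congr rfl fun c _ => ?_
    rw [MvPolynomial.aeval_monomial, map_one, one_mul, Finsupp.prod_add_index']
    · simp
    · simp
    · intro i a b
      exact pow_add _ _ _
  have h1 : P μ = P ν := hqt (by rw [hP, hP, h])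
  have hinj : ∀ c d : ℕ × ℕ, (Finsupp.single (0 : Fin 2) c.2 + Finsupp.single 1 c.1 : Fin 2 →₀ ℕ) =
      Finsupp.single 0 d.2 + Finsupp.single 1 d.1 → c = d := by
    intro c d hcd
    have e0 := DFunLike.congr_fun hcd 0
    have e1 := DFunLike.congr_fun hcd 1
    simp at e0 e1
    exact Prod.ext e1 e0
  have hc : ∀ (μ : YoungDiagram) (c : ℕ × ℕ), MvPolynomial.coeff
      (Finsupp.single 0 c.2 + Finsupp.single 1 c.1) (P μ) = if c ∈ μ.cells then 1 else 0 := by
    intro μ c
    rw [MvPolynomial.coeff_sum]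
    simp only [MvPolynomial.coeff_monomial]
    by_cases hcm : c ∈ μ.cells
    · rw [if_pos hcm, Finset.sum_eq_single c]
      · rw [if_pos rfl]
      · intro d _ hd
        rw [if_neg]
        intro h'
        exact hd (hinj _ _ h')
      · intro h'
        exact absurd hcm h'
    · rw [if_neg hcm]
      refine Finset.sum_eq_zero fun d hd => ?_
      rw [if_neg]
      intro h'
      rw [hinj _ _ h'] at hd
      exact hcm hd
  apply YoungDiagram.ext
  ext c
  have h2 := congrArg (MvPolynomial.coeff (Finsupp.single 0 c.2 + Finsupp.single 1 c.1)) h1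
  rw [hc, hc] at h2
  by_cases hm : c ∈ μ.cells <;> by_cases hn : c ∈ ν.cells <;> simp [hm, hn] at h2 ⊢

/-- The eigenvalues `1 - M B_μ` are distinct. -/
theorem eig_injective [Algebra ℚ K] {q t : K} (hqt : AlgebraicIndependent ℚ ![q, t])
    (hM : (1 - q) * (1 - t) ≠ 0) :
    Function.Injective (fun μ : YoungDiagram => 1 - ((1 - q) * (1 - t)) * Bmu q t μ) := by
  intro μ ν h
  apply Bmu_injective hqt
  simp only at h
  have : ((1 - q) * (1 - t)) * Bmu q t μ = ((1 - q) * (1 - t)) * Bmu q t ν := by
    linear_combination -h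
  exact mul_left_cancel₀ hM this

/-! ### the two-sided annihilator argument -/

variable {V : Type*} [AddCommGroup V] [Module K V]

open Polynomial in
/-- A vector which is killed by `∏_{ν ∈ A} (T - c_ν)` and by `∏_{ν ∈ B} (T - c_ν)`, where
`A ∩ B ⊆ {μ}` and `μ ∈ A`, `μ ∈ B`, is an eigenvector of `T` with eigenvalue `c_μ`. -/
theorem eigen_of_two {ι : Type*} [DecidableEq ι] (T : Module.End K V) (c : ι → K)
    (hc : Function.Injective c) (A B : Finset ι) (μ : ι) (hA : μ ∈ A) (hB : μ ∈ B)
    (hAB : ∀ ν, ν ∈ A → ν ∈ B → ν = μ) (v : V)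
    (h1 : aeval T (∏ ν ∈ A, (X - C (c ν))) v = 0)
    (h2 : aeval T (∏ ν ∈ B, (X - C (c ν))) v = 0) : T v = c μ • v := by
  have hcop : IsCoprime (∏ ν ∈ A.erase μ, (X - C (c ν))) (∏ ν ∈ B.erase μ, (X - C (c ν))) := by
    refine IsCoprime.prod_left fun i hi => IsCoprime.prod_right fun j hj => ?_
    have hij : i ≠ j := by
      rintro rfl
      rw [mem_erase] at hi hj
      exact hi.1 (hAB i hi.2 hj.2)
    exact Polynomial.isCoprime_X_sub_C_of_isUnit_sub
      (sub_ne_zero.2 (fun h => hij (hc h))).isUnit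
  obtain ⟨a, b, hab⟩ := hcop
  have key : (X - C (c μ)) = a * (∏ ν ∈ A, (X - C (c ν))) + b * (∏ ν ∈ B, (X - C (c ν))) := by
    rw [← Finset.mul_prod_erase A _ hA, ← Finset.mul_prod_erase B _ hB]
    calc (X - C (c μ) : K[X]) = (X - C (c μ)) * 1 := by rw [mul_one]
      _ = _ := by rw [← hab]; ring
  have h3 : aeval T (X - C (c μ)) v = 0 := by
    rw [key, map_add, map_mul, map_mul, LinearMap.add_apply, Module.End.mul_apply,
      Module.End.mul_apply, h1, h2, map_zero, map_zero, add_zero]
  rw [map_sub, aeval_X, aeval_C, LinearMap.sub_apply, Module.algebraMap_end_apply,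
    sub_eq_zero] at h3
  exact h3

open Polynomial in
/-- Iterating a triangularity: if `s ν` is in `U` for all `ν` in the finite set `A`, and
`(T - c_ν) s_ν` is in the span of the `s_κ`, `κ ∈ A`, `κ` of larger rank, then every vector of the
span of the `s_ν`, `ν ∈ A`, is killed by `∏_{ν ∈ A} (T - c_ν)`. -/
theorem annihilate {ι : Type*} [DecidableEq ι] (T : Module.End K V) (c : ι → K) (s : ι → V)
    (rank : ι → ℕ) (A : Finset ι)
    (htri : ∀ ν ∈ A, T (s ν) - c ν • s ν ∈
      Submodule.span K {v | ∃ κ ∈ A, rank ν < rank κ ∧ v = s κ})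
    (v : V) (hv : v ∈ Submodule.span K {v | ∃ κ ∈ A, v = s κ}) :
    aeval T (∏ ν ∈ A, (X - C (c ν))) v = 0 := by
  -- for all `r`: the product over `{ν ∈ A : r ≤ rank ν}` kills the span of those `s ν`
  have key : ∀ n r : ℕ, (∀ ν ∈ A, rank ν < r + n) →
      ∀ v ∈ Submodule.span K {v | ∃ κ ∈ A, r ≤ rank κ ∧ v = s κ},
        aeval T (∏ ν ∈ A.filter (fun ν => r ≤ rank ν), (X - C (c ν))) v = 0 := by
    intro n
    induction n with
    | zero =>
      intro r hr v hv
      have : {v | ∃ κ ∈ A, r ≤ rank κ ∧ v = s κ} = (∅ : Set V) := by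
        ext x
        constructor
        · rintro ⟨κ, h1, h2, -⟩
          have := hr κ h1
          omega
        · intro h
          exact absurd h (Set.notMem_empty _)
      rw [this, Submodule.span_empty, Submodule.mem_bot] at hv
      rw [hv, map_zero]
    | succ n ih =>
      intro r hr v hv
      have hs : A.filter (fun ν => r ≤ rank ν) =
          A.filter (fun ν => rank ν = r) ∪ A.filter (fun ν => r + 1 ≤ rank ν) := by
        ext ν
        simp only [mem_filter, mem_union]
        constructor
        · rintro ⟨h1, h2⟩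
          rcases Nat.eq_or_lt_of_le h2 with h3 | h3
          · exact Or.inl ⟨h1, h3.symm⟩
          · exact Or.inr ⟨h1, h3⟩
        · rintro (⟨h1, h2⟩ | ⟨h1, h2⟩)
          · exact ⟨h1, h2.symm.le⟩
          · exact ⟨h1, by omega⟩
      have hd : Disjoint (A.filter (fun ν => rank ν = r)) (A.filter (fun ν => r + 1 ≤ rank ν)) := by
        rw [Finset.disjoint_left]
        intro ν h1 h2
        rw [mem_filter] at h1 h2
        omega
      rw [hs, Finset.prod_union hd]
      have ih' := ih (r + 1) (fun ν hν => by have := hr ν hν; omega)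
      induction hv using Submodule.span_induction with
      | mem x hx =>
        obtain ⟨κ, h1, h2, rfl⟩ := hx
        rcases Nat.eq_or_lt_of_le h2 with h3 | h3
        · -- rank exactly `r`
          have hκ : κ ∈ A.filter (fun ν => rank ν = r) := mem_filter.2 ⟨h1, h3.symm⟩
          rw [← Finset.mul_prod_erase _ _ hκ]
          have h4 : aeval T (X - C (c κ)) (s κ) ∈
              Submodule.span K {v | ∃ κ ∈ A, r + 1 ≤ rank κ ∧ v = s κ} := by
            rw [map_sub, aeval_X, aeval_C, LinearMap.sub_apply, Module.algebraMap_end_apply]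
            refine Submodule.span_mono ?_ (htri κ h1)
            rintro _ ⟨κ', h5, h6, rfl⟩
            exact ⟨κ', h5, by omega, rfl⟩
          have h5 := ih' _ h4
          rw [show (X - C (c κ)) * (∏ x ∈ (A.filter (fun ν => rank ν = r)).erase κ, (X - C (c x))) *
              (∏ x ∈ A.filter (fun ν => r + 1 ≤ rank ν), (X - C (c x))) =
              (∏ x ∈ (A.filter (fun ν => rank ν = r)).erase κ, (X - C (c x))) *
              ((∏ x ∈ A.filter (fun ν => r + 1 ≤ rank ν), (X - C (c x))) * (X - C (c κ))) by ring,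
            map_mul, Module.End.mul_apply, map_mul, Module.End.mul_apply, h5, map_zero]
        · rw [map_mul, Module.End.mul_apply,
            ih' _ (Submodule.subset_span ⟨κ, h1, h3, rfl⟩), map_zero]
      | zero => rw [map_zero]
      | add x y _ _ hx hy => rw [map_add, hx, hy, add_zero]
      | smul a x _ hx => rw [map_smul, hx, smul_zero]
  have h0 := key (A.sup rank + 1) 0 (fun ν hν => by
    have := Finset.le_sup (f := rank) hν
    omega) v (by
    refine Submodule.span_mono ?_ hv
    rintro _ ⟨κ, h1, rfl⟩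
    exact ⟨κ, h1, Nat.zero_le _, rfl⟩)
  rw [Finset.filter_true_of_mem (fun _ _ => Nat.zero_le _)] at h0
  exact h0

/-! ### the spanning argument -/

/-- Nonzero eigenvectors with distinct eigenvalues, in the span of a family with the same finite
index set, span it. -/
theorem span_eq_of_eigen {ι : Type*} (A : Finset ι) (T : Module.End K V) (c : ι → K)
    (hc : Function.Injective c) (s H : ι → V)
    (hH : ∀ ν ∈ A, H ν ∈ Submodule.span K {v | ∃ κ ∈ A, v = s κ})
    (hne : ∀ ν ∈ A, H ν ≠ 0) (heig : ∀ ν ∈ A, T (H ν) = c ν • H ν) :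
    Submodule.span K {v | ∃ κ ∈ A, v = s κ} = Submodule.span K {v | ∃ κ ∈ A, v = H κ} := by
  classical
  have hset : ∀ f : ι → V, {v | ∃ κ ∈ A, v = f κ} = Set.range (fun a : A => f a.1) := by
    intro f
    ext x
    constructor
    · rintro ⟨κ, h1, rfl⟩
      exact ⟨⟨κ, h1⟩, rfl⟩
    · rintro ⟨⟨κ, h1⟩, rfl⟩
      exact ⟨κ, h1, rfl⟩
  have hlin : LinearIndependent K (fun a : A => H a.1) := by
    refine Module.End.eigenvectors_linearIndependent' T (fun a : A => c a.1)
      (hc.comp Subtype.val_injective) _ fun a => ?_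
    rw [Module.End.hasEigenvector_iff]
    exact ⟨Module.End.mem_eigenspace_iff.2 (heig a.1 a.2), hne a.1 a.2⟩
  have hle : Submodule.span K {v | ∃ κ ∈ A, v = H κ} ≤
      Submodule.span K {v | ∃ κ ∈ A, v = s κ} := by
    rw [Submodule.span_le]
    rintro _ ⟨κ, h1, rfl⟩
    exact hH κ h1
  have hfin : FiniteDimensional K (Submodule.span K {v | ∃ κ ∈ A, v = s κ}) := by
    rw [hset s]
    exact FiniteDimensional.span_of_finite K (Set.finite_range _)
  refine (Submodule.eq_of_le_of_finrank_le hle ?_).symm
  rw [hset s, hset H, finrank_span_eq_card hlin]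
  exact (finrank_range_le_card _)

end Pool.Agent.Lib.MP_0e7911_co_h31
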