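import Pool.Agent.Lib.MP_0e7911_co_h13.Mac
import Pool.Agent.Lib.MP_0e7911_co_h31.Dom

/-!
# Bounded triangularity of the Macdonald operator

`v` is a valuation with `v q > 1`, `v t ≤ 1`.
-/

set_option autoImplicit false

namespace Pool.Agent.Lib.MP_0e7911_co_h31.Ex

open Finset Pool.Agent.Lib.MP_0e7911_co_h56 Pool.Agent.Lib.MP_0e7911_co_full

variable {K : Type*} [Field K] {Γ₀ : Type*} [LinearOrderedCommGroupWithZero Γ₀]

/-- the largest entry -/
def mx (τ : List ℕ) : ℕ := τ.foldr max 0

@[simp] theorem mx_nil : mx [] = 0 := rfl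

@[simp] theorem mx_cons (a : ℕ) (τ : List ℕ) : mx (a :: τ) = max a (mx τ) := rfl

/-- the bounded relation: the first difference -/
def PG (v : Valuation K Γ₀) (q : K) : List ℕ → List ℕ → K → Prop
  | m :: κ, a :: τ, c => (m < a ∧ v c ≤ v q ^ mx (a :: τ)) ∨ (a = m ∧ PG v q κ τ c)
  | _, _, _ => False

theorem PG_cons (v : Valuation K Γ₀) (q : K) (m a : ℕ) (κ τ : List ℕ) (c : K) :
    PG v q (m :: κ) (a :: τ) c ↔
      (m < a ∧ v c ≤ v q ^ mx (a :: τ)) ∨ (a = m ∧ PG v q κ τ c) := Iff.rfl

/-- the span over the valuation ring, bound `1` -/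
noncomputable def W1 (v : Valuation K Γ₀) (κ : List ℕ) (b : ℕ) :
    Submodule v.integer (SymF K) :=
  Submodule.span v.integer {f | ∃ τ : List ℕ, τ.length = κ.length ∧ τ.sum + b = κ.sum ∧
    (∀ k, (κ.take k).sum ≤ (τ.take k).sum + b) ∧ f = hl K τ}

/-- the span over the valuation ring, bound `q ^ max` -/
noncomputable def W2 (v : Valuation K Γ₀) (q : K) (κ : List ℕ) (b : ℕ) :
    Submodule v.integer (SymF K) :=
  Submodule.span v.integer {f | ∃ (τ : List ℕ) (c : K), τ.length = κ.length ∧
    τ.sum + b = κ.sum ∧ (∀ k, (κ.take k).sum ≤ (τ.take k).sum + b) ∧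
    v c ≤ v q ^ mx τ ∧ f = c • hl K τ}

/-- the span over the valuation ring, bound at the first difference -/
noncomputable def W3 (v : Valuation K Γ₀) (q : K) (κ : List ℕ) :
    Submodule v.integer (SymF K) :=
  Submodule.span v.integer {f | ∃ (τ : List ℕ) (c : K), τ.length = κ.length ∧
    τ.sum = κ.sum ∧ (∀ k, (κ.take k).sum ≤ (τ.take k).sum) ∧
    PG v q κ τ c ∧ f = c • hl K τ}

theorem int_smul_mem {v : Valuation K Γ₀} {W : Submodule v.integer (SymF K)} {r : K}
    (hr : v r ≤ 1) {x : SymF K} (hx : x ∈ W) : r • x ∈ W :=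
  W.smul_mem ⟨r, hr⟩ hx

theorem mul_smul_int {v : Valuation K Γ₀} (a x : SymF K) (r : v.integer) :
    a * (r • x) = r • (a * x) := by
  change a * ((r : K) • x) = (r : K) • (a * x)
  rw [mul_smul_comm]

theorem W1_mul {v : Valuation K Γ₀} {κ : List ℕ} {m a b c : ℕ} (h : a + b = m + c) {f : SymF K}
    (hf : f ∈ W1 v κ c) : homog K a * f ∈ W1 v (m :: κ) b := by
  rw [W1] at hf
  induction hf using Submodule.span_induction with
  | mem x hx =>
    obtain ⟨τ, h1, h2, h3, rfl⟩ := hx
    refine Submodule.subset_span ⟨a :: τ, ?_, ?_, ?_, ?_⟩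
    · simp [h1]
    · simp only [List.sum_cons]
      omega
    · intro k
      cases k with
      | zero => simp
      | succ k =>
        simp only [List.take_succ_cons, List.sum_cons]
        have := h3 k
        omega
    · rw [hl_cons]
  | zero => rw [mul_zero]; exact Submodule.zero_mem _
  | add x y _ _ hx hy => rw [mul_add]; exact Submodule.add_mem _ hx hy
  | smul r x _ hx => rw [mul_smul_int]; exact Submodule.smul_mem _ _ hx

theorem W12_mul {v : Valuation K Γ₀} {q : K} (hq : 1 ≤ v q) {κ : List ℕ} {m a b c : ℕ}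
    (h : a + b = m + c) {f : SymF K}
    (hf : f ∈ W1 v κ c) : q ^ a • (homog K a * f) ∈ W2 v q (m :: κ) b := by
  rw [W1] at hf
  induction hf using Submodule.span_induction with
  | mem x hx =>
    obtain ⟨τ, h1, h2, h3, rfl⟩ := hx
    refine Submodule.subset_span ⟨a :: τ, q ^ a, ?_, ?_, ?_, ?_, ?_⟩
    · simp [h1]
    · simp only [List.sum_cons]
      omega
    · intro k
      cases k with
      | zero => simp
      | succ k =>
        simp only [List.take_succ_cons, List.sum_cons]
        have := h3 k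
        omega
    · rw [map_pow]
      exact pow_le_pow_right₀ hq (le_max_left _ _)
    · rw [hl_cons]
  | zero => rw [mul_zero, smul_zero]; exact Submodule.zero_mem _
  | add x y _ _ hx hy => rw [mul_add, smul_add]; exact Submodule.add_mem _ hx hy
  | smul r x _ hx =>
    rw [mul_smul_int, show q ^ a • (r • (homog K a * x)) = r • (q ^ a • (homog K a * x)) from
      smul_comm (q ^ a) (r : K) _]
    exact Submodule.smul_mem _ _ hx

theorem W2_mul {v : Valuation K Γ₀} {q : K} (hq : 1 ≤ v q) {κ : List ℕ} {m a b c : ℕ}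
    (h : a + b = m + c) {f : SymF K}
    (hf : f ∈ W2 v q κ c) : homog K a * f ∈ W2 v q (m :: κ) b := by
  rw [W2] at hf
  induction hf using Submodule.span_induction with
  | mem x hx =>
    obtain ⟨τ, r, h1, h2, h3, h4, rfl⟩ := hx
    refine Submodule.subset_span ⟨a :: τ, r, ?_, ?_, ?_, ?_, ?_⟩
    · simp [h1]
    · simp only [List.sum_cons]
      omega
    · intro k
      cases k with
      | zero => simp
      | succ k =>
        simp only [List.take_succ_cons, List.sum_cons]
        have := h3 k
        omega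
    · exact h4.trans (pow_le_pow_right₀ hq (le_max_right _ _))
    · rw [hl_cons, mul_smul_comm]
  | zero => rw [mul_zero]; exact Submodule.zero_mem _
  | add x y _ _ hx hy => rw [mul_add]; exact Submodule.add_mem _ hx hy
  | smul r x _ hx => rw [mul_smul_int]; exact Submodule.smul_mem _ _ hx

variable [CharZero K]

omit [CharZero K] in
theorem v_cc {v : Valuation K Γ₀} {t : K} (ht : v t ≤ 1) (a : ℕ) : v (cc t a) ≤ 1 := by
  rw [cc]
  split_ifs
  · rw [map_one]
  · exact (v.map_sub 1 t).trans (max_le (by rw [map_one]) ht)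

theorem coeff_W1 {v : Valuation K Γ₀} {t : K} (ht : v t ≤ 1) (κ : List ℕ) :
    ∀ b, (io1 t (hl K κ)).coeff b ∈ W1 v κ b := by
  induction κ with
  | nil =>
    intro b
    rw [hl_nil, map_one, Polynomial.coeff_one]
    split_ifs with hb
    · subst hb
      exact Submodule.subset_span ⟨[], rfl, rfl, by simp, by simp⟩
    · exact Submodule.zero_mem _
  | cons m κ ih =>
    intro b
    rw [hl_cons, map_mul, io1_homog, Finset.sum_mul, Polynomial.finsetSum_coeff]
    refine Submodule.sum_mem _ fun a ha => ?_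
    rw [mem_range] at ha
    by_cases hab : a ≤ b
    · obtain ⟨c, rfl⟩ : ∃ c, b = c + a := ⟨b - a, by omega⟩
      rw [Polynomial.coeff_monomial_mul, smul_mul_assoc]
      exact int_smul_mem (v_cc ht a) (W1_mul (by omega) (ih c))
    · rw [← Polynomial.C_mul_X_pow_eq_monomial, mul_assoc, Polynomial.coeff_C_mul,
        Polynomial.coeff_X_pow_mul', if_neg hab, mul_zero]
      exact Submodule.zero_mem _

omit [CharZero K] in
theorem v_one_sub {v : Valuation K Γ₀} {t : K} (ht : v t ≤ 1) : v (1 - t) ≤ 1 :=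
  (v.map_sub 1 t).trans (max_le (by rw [map_one]) ht)

theorem Lm_W2 {v : Valuation K Γ₀} {q t : K} (hq : 1 ≤ v q) (ht : v t ≤ 1) (κ : List ℕ) :
    ∀ b, Lm q b (io1 t (hl K κ)) ∈ W2 v q κ b := by
  induction κ with
  | nil =>
    intro b
    rw [hl_nil, map_one, ← Polynomial.monomial_zero_one, Lm_monomial]
    split_ifs with hb
    · have hb0 : b = 0 := by omega
      subst hb0
      have : gam q (0 - 0) * (1 : SymF K) = (1 : K) • hl K [] := by
        rw [Nat.sub_zero, gam, et, elem]
        simp
      rw [this]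
      exact Submodule.subset_span ⟨[], 1, rfl, rfl, by simp, by simp, rfl⟩
    · exact Submodule.zero_mem _
  | cons m κ ih =>
    intro b
    rw [hl_cons, map_mul, Lm_rec q t m b _ _ (Nat.lt_succ_self _)]
    refine Submodule.add_mem _ (int_smul_mem ht (W2_mul hq rfl (ih b)))
      (int_smul_mem (v_one_sub ht) (Submodule.sub_mem _ (Submodule.sum_mem _ fun c _ => ?_)
        (Submodule.sum_mem _ fun c hc => ?_)))
    · split_ifs with h
      · exact W12_mul hq (by omega) (coeff_W1 ht κ c)
      · exact Submodule.zero_mem _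
    · rw [mem_Ioo] at hc
      exact W2_mul hq (by omega) (ih c)

omit [CharZero K] in
theorem W3_mul {v : Valuation K Γ₀} {q : K} {κ : List ℕ} {m : ℕ} {f : SymF K}
    (hf : f ∈ W3 v q κ) : homog K m * f ∈ W3 v q (m :: κ) := by
  rw [W3] at hf
  induction hf using Submodule.span_induction with
  | mem x hx =>
    obtain ⟨τ, r, h1, h2, h3, h4, rfl⟩ := hx
    refine Submodule.subset_span ⟨m :: τ, r, ?_, ?_, ?_, ?_, ?_⟩
    · simp [h1]
    · simp only [List.sum_cons]
      omega
    · intro k
      cases k with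
      | zero => simp
      | succ k =>
        simp only [List.take_succ_cons, List.sum_cons]
        have := h3 k
        omega
    · exact (PG_cons v q m m κ τ r).2 (Or.inr ⟨rfl, h4⟩)
    · rw [hl_cons, mul_smul_comm]
  | zero => rw [mul_zero]; exact Submodule.zero_mem _
  | add x y _ _ hx hy => rw [mul_add]; exact Submodule.add_mem _ hx hy
  | smul r x _ hx => rw [mul_smul_int]; exact Submodule.smul_mem _ _ hx

omit [CharZero K] in
theorem W13_mul {v : Valuation K Γ₀} {q : K} (hq : 1 ≤ v q) {κ : List ℕ} {m c : ℕ} (hc : 0 < c)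
    {f : SymF K} (hf : f ∈ W1 v κ c) :
    q ^ (m + c) • (homog K (m + c) * f) ∈ W3 v q (m :: κ) := by
  rw [W1] at hf
  induction hf using Submodule.span_induction with
  | mem x hx =>
    obtain ⟨τ, h1, h2, h3, rfl⟩ := hx
    refine Submodule.subset_span ⟨(m + c) :: τ, q ^ (m + c), ?_, ?_, ?_, ?_, ?_⟩
    · simp [h1]
    · simp only [List.sum_cons]
      omega
    · intro k
      cases k with
      | zero => simp
      | succ k =>
        simp only [List.take_succ_cons, List.sum_cons]
        have := h3 k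
        omega
    · refine (PG_cons v q m (m + c) κ τ _).2 (Or.inl ⟨by omega, ?_⟩)
      rw [map_pow]
      exact pow_le_pow_right₀ hq (le_max_left _ _)
    · rw [hl_cons]
  | zero => rw [mul_zero, smul_zero]; exact Submodule.zero_mem _
  | add x y _ _ hx hy => rw [mul_add, smul_add]; exact Submodule.add_mem _ hx hy
  | smul r x _ hx =>
    rw [mul_smul_int, show q ^ (m + c) • (r • (homog K (m + c) * x)) =
      r • (q ^ (m + c) • (homog K (m + c) * x)) from smul_comm (q ^ (m + c)) (r : K) _]
    exact Submodule.smul_mem _ _ hx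

omit [CharZero K] in
theorem W23_mul {v : Valuation K Γ₀} {q : K} (hq : 1 ≤ v q) {κ : List ℕ} {m c : ℕ} (hc : 0 < c)
    {f : SymF K} (hf : f ∈ W2 v q κ c) : homog K (m + c) * f ∈ W3 v q (m :: κ) := by
  rw [W2] at hf
  induction hf using Submodule.span_induction with
  | mem x hx =>
    obtain ⟨τ, r, h1, h2, h3, h4, rfl⟩ := hx
    refine Submodule.subset_span ⟨(m + c) :: τ, r, ?_, ?_, ?_, ?_, ?_⟩
    · simp [h1]
    · simp only [List.sum_cons]
      omega
    · intro k
      cases k with
      | zero => simp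
      | succ k =>
        simp only [List.take_succ_cons, List.sum_cons]
        have := h3 k
        omega
    · exact (PG_cons v q m (m + c) κ τ _).2 (Or.inl ⟨by omega,
        h4.trans (pow_le_pow_right₀ hq (le_max_right _ _))⟩)
    · rw [hl_cons, mul_smul_comm]
  | zero => rw [mul_zero]; exact Submodule.zero_mem _
  | add x y _ _ hx hy => rw [mul_add]; exact Submodule.add_mem _ hx hy
  | smul r x _ hx => rw [mul_smul_int]; exact Submodule.smul_mem _ _ hx

/-- The bounded triangularity. -/
theorem D1_W3 {v : Valuation K Γ₀} {q t : K} (hq : 1 ≤ v q) (ht : v t ≤ 1) (κ : List ℕ) :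
    D1 q t (hl K κ) - cl q t κ • hl K κ ∈ W3 v q κ := by
  change Lm q 0 (io1 t (hl K κ)) - _ ∈ _
  induction κ with
  | nil =>
    rw [hl_nil, map_one, ← Polynomial.monomial_zero_one, Lm_monomial, if_pos le_rfl]
    have : gam q (0 - 0) * (1 : SymF K) = 1 := by
      rw [Nat.sub_zero, gam, et, elem]
      simp
    rw [this, cl_nil, one_smul, sub_self]
    exact Submodule.zero_mem _
  | cons m κ ih =>
    rw [hl_cons, map_mul, Lm_rec q t m 0 _ _ (Nat.lt_succ_self _)]
    simp only [Nat.zero_le, if_true, Nat.sub_zero]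
    rw [Finset.sum_range_succ', add_zero, coeff_io1_zero, cl_cons]
    have e1 : t • (homog K m * Lm q 0 (io1 t (hl K κ))) + (1 - t) •
        (∑ c ∈ range (io1 t (hl K κ)).natDegree, q ^ (m + (c + 1)) •
          (homog K (m + (c + 1)) * (io1 t (hl K κ)).coeff (c + 1)) +
          q ^ m • (homog K m * hl K κ) -
          ∑ c ∈ Ioo 0 ((io1 t (hl K κ)).natDegree + 1),
            homog K (m + c) * Lm q c (io1 t (hl K κ))) -
        ((1 - t) * q ^ m + t * cl q t κ) • (homog K m * hl K κ) =
        t • (homog K m * (Lm q 0 (io1 t (hl K κ)) - cl q t κ • hl K κ)) + (1 - t) •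
        (∑ c ∈ range (io1 t (hl K κ)).natDegree, q ^ (m + (c + 1)) •
          (homog K (m + (c + 1)) * (io1 t (hl K κ)).coeff (c + 1)) -
          ∑ c ∈ Ioo 0 ((io1 t (hl K κ)).natDegree + 1),
            homog K (m + c) * Lm q c (io1 t (hl K κ))) := by
      simp only [MvPolynomial.smul_eq_C_mul, map_add, map_mul, map_sub, map_one]
      ring
    rw [e1]
    refine Submodule.add_mem _ (int_smul_mem ht (W3_mul ih))
      (int_smul_mem (v_one_sub ht) (Submodule.sub_mem _ (Submodule.sum_mem _ fun c _ => ?_)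
        (Submodule.sum_mem _ fun c hc => ?_)))
    · exact W13_mul hq (Nat.succ_pos c) (coeff_W1 ht κ _)
    · rw [mem_Ioo] at hc
      exact W23_mul hq hc.1 (Lm_W2 hq ht κ c)

end Pool.Agent.Lib.MP_0e7911_co_h31.Ex
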