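import Pool.Agent.Lib.MP_0e7911_co_h31.Exist1
import Pool.Agent.Lib.MP_0e7911_co_h88.Mac2

set_option autoImplicit false

namespace Pool.Agent.Lib.MP_0e7911_co_h31.Ex

open Finset Pool.Agent.Lib.MP_0e7911_co_h56 Pool.Agent.Lib.MP_0e7911_co_full

variable {K : Type*} [Field K] {Γ₀ : Type*} [LinearOrderedCommGroupWithZero Γ₀]

/-- the sorted list -/
def srt (τ : List ℕ) : List ℕ := τ.insertionSort (· ≥ ·)

theorem srt_cons (a : ℕ) (τ : List ℕ) : srt (a :: τ) = (srt τ).orderedInsert (· ≥ ·) a := rfl

theorem srt_perm (τ : List ℕ) : (srt τ).Perm τ := List.perm_insertionSort _ τ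

theorem srt_sorted (τ : List ℕ) : (srt τ).Pairwise (· ≥ ·) := List.pairwise_insertionSort _ τ

theorem le_mx {τ : List ℕ} {x : ℕ} (hx : x ∈ τ) : x ≤ mx τ := by
  induction τ with
  | nil => simp at hx
  | cons a τ ih =>
    rw [mx_cons]
    rcases List.mem_cons.1 hx with h | h
    · rw [h]; exact le_max_left _ _
    · exact (ih h).trans (le_max_right _ _)

theorem srt_getD_le (τ : List ℕ) (j : ℕ) : (srt τ).getD j 0 ≤ mx τ := by
  by_cases h : j < (srt τ).length
  · rw [List.getD_eq_getElem _ _ h]
    exact le_mx ((srt_perm τ).mem_iff.1 (List.getElem_mem h))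
  · rw [List.getD_eq_default _ _ (not_lt.1 h)]
    exact Nat.zero_le _

theorem srt_head (τ : List ℕ) : (srt τ).getD 0 0 = mx τ := by
  induction τ with
  | nil => rfl
  | cons a τ ih =>
    rw [srt_cons, mx_cons, ← ih]
    cases h : srt τ with
    | nil => simp
    | cons b l =>
      rw [List.orderedInsert]
      split_ifs with hab
      · simp only [List.getD_cons_zero]
        omega
      · simp only [List.getD_cons_zero]
        omega

theorem PG_srt (v : Valuation K Γ₀) {q : K} (hq : 1 ≤ v q) (κ : List ℕ) :
    ∀ (τ : List ℕ) (c : K), PG v q κ τ c →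
      ∃ i, (∀ j, j < i → (srt τ).getD j 0 = κ.getD j 0) ∧ κ.getD i 0 < (srt τ).getD i 0 ∧
        v c ≤ v q ^ (srt τ).getD i 0 := by
  induction κ with
  | nil =>
    intro τ c h
    exact absurd h (by simp [PG])
  | cons m κ ih =>
    intro τ c h
    cases τ with
    | nil => exact absurd h (by simp [PG])
    | cons a τ =>
      rw [PG_cons] at h
      rcases h with ⟨h1, h2⟩ | ⟨rfl, h2⟩
      · refine ⟨0, fun j hj => absurd hj (Nat.not_lt_zero j), ?_, ?_⟩
        · rw [srt_head, mx_cons, List.getD_cons_zero]
          exact lt_of_lt_of_le h1 (le_max_left _ _)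
        · rw [srt_head]
          exact h2
      · obtain ⟨i, h3, h4, h5⟩ := ih τ c h2
        rw [srt_cons]
        cases hs : srt τ with
        | nil =>
          rw [hs] at h4
          simp at h4
        | cons b l =>
          rw [hs] at h3 h4 h5
          rw [List.orderedInsert]
          split_ifs with hab
          · refine ⟨i + 1, fun j hj => ?_, ?_, ?_⟩
            · cases j with
              | zero => rfl
              | succ j =>
                simp only [List.getD_cons_succ]
                exact h3 j (by omega)
            · simpa only [List.getD_cons_succ] using h4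
            · simpa only [List.getD_cons_succ] using h5
          · refine ⟨0, fun j hj => absurd hj (Nat.not_lt_zero j), ?_, ?_⟩
            · simp only [List.getD_cons_zero]
              omega
            · simp only [List.getD_cons_zero]
              refine h5.trans (pow_le_pow_right₀ hq ?_)
              have e1 := srt_getD_le τ i
              have e2 := srt_head τ
              rw [hs] at e1 e2
              simp only [List.getD_cons_zero] at e2
              omega

theorem filter_getD {σ : List ℕ} (hσ : σ.Pairwise (· ≥ ·)) :
    ∀ i, (σ.filter (fun n => 0 < n)).getD i 0 = σ.getD i 0 := by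
  induction σ with
  | nil => intro i; simp
  | cons b l ih =>
    intro i
    rw [List.pairwise_cons] at hσ
    by_cases hb : 0 < b
    · rw [List.filter_cons_of_pos (by simpa using hb)]
      cases i with
      | zero => rfl
      | succ i => simpa only [List.getD_cons_succ] using ih hσ.2 i
    · have hb0 : b = 0 := by omega
      subst hb0
      have hall : ∀ x ∈ (0 :: l), x = 0 := by
        intro x hx
        rcases List.mem_cons.1 hx with h | h
        · exact h
        · have := hσ.1 x h
          omega
      have h1 : (0 :: l).filter (fun n => 0 < n) = [] := by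
        rw [List.filter_eq_nil_iff]
        intro x hx
        rw [hall x hx]
        simp
      rw [h1]
      by_cases hi : i < (0 :: l).length
      · rw [List.getD_eq_getElem _ _ hi, hall _ (List.getElem_mem hi)]
        simp
      · rw [List.getD_eq_default _ _ (not_lt.1 hi)]
        simp

theorem rowLens_getD (l : YoungDiagram) (i : ℕ) : l.rowLens.getD i 0 = l.rowLen i := by
  by_cases h : i < l.rowLens.length
  · rw [List.getD_eq_getElem _ _ h]
    exact YoungDiagram.get_rowLens
  · rw [List.getD_eq_default _ _ (not_lt.1 h)]
    rw [YoungDiagram.length_rowLens] at h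
    by_contra h0
    have h3 : (i, 0) ∈ l := YoungDiagram.mem_iff_lt_rowLen.2 (Nat.pos_of_ne_zero (Ne.symm h0))
    have h4 := YoungDiagram.mem_iff_lt_colLen.1 h3
    omega

/-- the diagram of a list -/
theorem exists_diag2 (κ : List ℕ) : ∃ l : YoungDiagram, l.card = κ.sum ∧
    (∀ k, (κ.take k).sum ≤ ∑ i ∈ range k, l.rowLen i) ∧ hl K κ = hl K l.rowLens ∧
    ∀ i, l.rowLen i = (srt κ).getD i 0 := by
  let L := (srt κ).filter (fun n => 0 < n)
  have hperm : L.Perm (κ.filter (fun n => 0 < n)) := (srt_perm κ).filter _
  have hL : L.SortedGE := by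
    apply List.Pairwise.sortedGE
    exact (srt_sorted κ).filter _
  have hpos : ∀ x ∈ L, 0 < x := by
    intro x hx
    rw [List.mem_filter] at hx
    simpa using hx.2
  have hrl := YoungDiagram.rowLens_ofRowLens_eq_self (hw := hL) hpos
  refine ⟨YoungDiagram.ofRowLens L hL, ?_, ?_, ?_, ?_⟩
  · rw [card_eq_sum_rowLens, hrl, hperm.sum_eq, sum_filter_pos]
  · intro k
    refine le_trans ?_ (sum_take_rowLens _ k)
    rw [hrl, ← sum_filter_pos]
    have h1 := sum_le_take L hL ((κ.take k).filter (fun n => 0 < n) : List ℕ) (by
      rw [show (L : Multiset ℕ) = ((κ.filter (fun n => 0 < n) : List ℕ) : Multiset ℕ) from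
        Multiset.coe_eq_coe.mpr hperm, Multiset.coe_le]
      exact ((List.take_sublist k κ).filter _).subperm) k (by
      rw [Multiset.coe_card]
      exact (List.length_filter_le _ _).trans (List.length_take_le _ _))
    rw [Multiset.sum_coe] at h1
    exact h1
  · rw [hrl, hl_perm hperm, hl_filter]
  · intro i
    rw [← rowLens_getD, hrl]
    exact filter_getD (srt_sorted κ) i

end Pool.Agent.Lib.MP_0e7911_co_h31.Ex
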