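import Pool.Agent.Lib.MP_0e7911_co_h38.Defs2

/-!
# The kernel: reproducing property and Cauchy identity
-/

set_option autoImplicit false

namespace Pool.Agent.Lib.MP0e7911H31

open Finset Pool.Agent.Lib.MP0e7911H38

variable {K : Type*} [Field K] {m : ℕ}

/-! ### Series -/

theorem coeff_Eg {R : Type*} [CommRing R] (z : R) (n : ℕ) :
    PowerSeries.coeff n (Eg z) = z ^ n := by
  simp [Eg]

theorem one_sub_mul_Eg {R : Type*} [CommRing R] (z : R) :
    (1 - PowerSeries.C z * PowerSeries.X) * Eg z = 1 := by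
  ext n
  rw [sub_mul, one_mul, map_sub, coeff_Eg, mul_assoc, PowerSeries.coeff_C_mul]
  cases n with
  | zero => simp
  | succ n =>
    rw [PowerSeries.coeff_succ_X_mul, coeff_Eg, PowerSeries.coeff_one, if_neg (Nat.succ_ne_zero n),
      pow_succ', sub_self]

theorem Eh_eq {R : Type*} [CommRing R] [Algebra K R] (q : K) (z : R) :
    Eh q z = (1 - PowerSeries.C z * PowerSeries.X) * Eg (q • z) := by
  ext n
  rw [sub_mul, one_mul, map_sub, coeff_Eg, mul_assoc, PowerSeries.coeff_C_mul]
  cases n with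
  | zero => simp [Eh, eta]
  | succ n =>
    rw [PowerSeries.coeff_succ_X_mul, coeff_Eg, Eh, PowerSeries.coeff_mk, eta, smul_pow, smul_pow,
      sub_smul, mul_smul_comm, pow_succ' z]

theorem Ec_eq {R : Type*} [CommRing R] [Algebra K R] (q : K) (z : R) :
    Ec q z = (1 - PowerSeries.C (q • z) * PowerSeries.X) * Eg z := by
  ext n
  rw [sub_mul, one_mul, map_sub, coeff_Eg, mul_assoc, PowerSeries.coeff_C_mul]
  cases n with
  | zero => simp [Ec, zeta]
  | succ n =>
    rw [PowerSeries.coeff_succ_X_mul, coeff_Eg, Ec, PowerSeries.coeff_mk, zeta, sub_smul, one_smul,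
      smul_mul_assoc, pow_succ']

theorem Eh_mul_Ec {R : Type*} [CommRing R] [Algebra K R] (q : K) (z : R) :
    Eh q z * Ec q z = 1 := by
  rw [Eh_eq, Ec_eq]
  have h1 := one_sub_mul_Eg z
  have h2 := one_sub_mul_Eg (q • z)
  calc _ = ((1 - PowerSeries.C z * PowerSeries.X) * Eg z) *
        ((1 - PowerSeries.C (q • z) * PowerSeries.X) * Eg (q • z)) := by ring
    _ = 1 := by rw [h1, h2, one_mul]

theorem Hser_mul_Cser (q : K) (m : ℕ) : Hser q m * Cser q m = 1 := by
  rw [Hser, Cser, ← Finset.prod_mul_distrib]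
  exact Finset.prod_eq_one fun j _ => Eh_mul_Ec q _

theorem up_zz (i : Fin m) : up (zz i : LR K m) = zz i.succ := by
  rw [zz, up_mo, zz]
  congr 1
  funext k
  refine Fin.cases ?_ (fun j => ?_) k
  · rw [Fin.cons_zero, ei_ne (Fin.succ_ne_zero i).symm]
  · rw [Fin.cons_succ, ei, ei]
    by_cases h : j = i
    · subst h; simp
    · rw [Pi.single_eq_of_ne h, Pi.single_eq_of_ne (fun h' => h (Fin.succ_injective _ h'))]

theorem map_up_Cser (q : K) (m : ℕ) :
    PowerSeries.map (up (K := K) (m := m)).toRingHom (Cser q m) =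
      ∏ j : Fin m, Ec q (zz j.succ : LR K (m + 1)) := by
  rw [Cser, map_prod]
  refine Finset.prod_congr rfl fun j _ => ?_
  ext n
  rw [PowerSeries.coeff_map, Ec, Ec, PowerSeries.coeff_mk, PowerSeries.coeff_mk]
  have : (up (K := K) (m := m)).toRingHom (zeta q n • (zz j) ^ n) =
      up (zeta q n • (zz j) ^ n) := rfl
  rw [this, map_smul, map_pow, up_zz]

theorem zz_zero_pow (k : ℕ) :
    (zz 0 : LR K (m + 1)) ^ k = mo (Fin.cons (k : ℚ) 0 : Fin (m + 1) → ℚ) := by
  induction k with
  | zero =>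
    rw [pow_zero, ← mo_zero]
    congr 1
    funext i
    refine Fin.cases ?_ (fun j => ?_) i <;> simp
  | succ k ih =>
    rw [pow_succ, ih, zz, mo_mul]
    congr 1
    funext i
    refine Fin.cases ?_ (fun j => ?_) i
    · simp [ei_self]
    · simp [ei_ne (Fin.succ_ne_zero j)]

theorem coeff_Bser (q : K) (m n : ℕ) :
    PowerSeries.coeff n (Bser q m) = ∑ p ∈ Finset.HasAntidiagonal.antidiagonal n,
      mo (Fin.cons (p.1 : ℚ) 0 : Fin (m + 1) → ℚ) * up (PowerSeries.coeff p.2 (Cser q m)) := by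
  rw [Bser, ← map_up_Cser, PowerSeries.coeff_mul]
  refine Finset.sum_congr rfl fun p _ => ?_
  rw [coeff_Eg, zz_zero_pow, PowerSeries.coeff_map]
  rfl

/-! ### Peeling -/

theorem mo_cons (a : ℚ) (c : Fin m → ℚ) :
    (mo (Fin.cons a c : Fin (m + 1) → ℚ) : LR K (m + 1)) =
      mo (Fin.cons a 0 : Fin (m + 1) → ℚ) * up (mo c) := by
  rw [up_mo, mo_mul]
  congr 1
  funext k
  refine Fin.cases ?_ (fun j => ?_) k <;> simp

theorem Lf_peel' (q : K) (c0 : ℚ) (g : LR K m) :
    Lf q (m + 1) (mo (Fin.cons c0 0 : Fin (m + 1) → ℚ) * up g) =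
      if c0 = (⌊c0⌋₊ : ℚ) then Lf q m (Hc q m ⌊c0⌋₊ * g) else 0 := by
  refine mo_induction (P := fun g => Lf q (m + 1) (mo (Fin.cons c0 0 : Fin (m + 1) → ℚ) * up g) =
      if c0 = (⌊c0⌋₊ : ℚ) then Lf q m (Hc q m ⌊c0⌋₊ * g) else 0) g ?_ ?_ ?_ ?_
  · simp
  · intro c
    rw [← mo_cons, Lf, lin_mo]
    simp
  · intro f g hf hg
    rw [map_add, mul_add, map_add, hf, hg]
    split_ifs
    · rw [mul_add, map_add]
    · rw [add_zero]
  · intro r f hf
    rw [map_smul, mul_smul_comm, map_smul, hf]
    split_ifs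
    · rw [mul_smul_comm, map_smul]
    · rw [smul_zero]

theorem Lf_peel_nat (q : K) (k a : ℕ) (g : LR K m) :
    Lf q (m + 1) (mo (Fin.cons ((k : ℚ) - a) 0 : Fin (m + 1) → ℚ) * up g) =
      if a ≤ k then Lf q m (Hc q m (k - a) * g) else 0 := by
  rw [Lf_peel']
  by_cases h : a ≤ k
  · rw [if_pos h, ← Nat.cast_sub h, Nat.floor_natCast, if_pos rfl]
  · rw [if_neg h, if_neg]
    have h1 : (k : ℚ) - a < 0 := by
      rw [sub_neg]
      exact_mod_cast not_le.1 h
    rw [Nat.floor_of_nonpos h1.le]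
    push_cast
    exact h1.ne

/-- The reproducing property of the kernel. -/
theorem Lf_Qe (q : K) (α e : Fin m → ℕ) :
    Lf q m (mo (-(nexp α)) * Qe q m e) = if α = e then 1 else 0 := by
  induction m with
  | zero =>
    rw [Qe, mul_one, Lf, lin_mo, if_pos (Subsingleton.elim _ _)]
  | succ m ih =>
    have h1 : (mo (-(nexp α)) : LR K (m + 1)) =
        mo (Fin.cons (-(α 0 : ℚ)) 0 : Fin (m + 1) → ℚ) * up (mo (-(nexp (Fin.tail α)))) := by
      rw [← mo_cons]
      congr 1
      funext k
      refine Fin.cases ?_ (fun j => ?_) k <;> simp [nexp, Fin.tail]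
    have h2 : (mo (-(nexp α)) : LR K (m + 1)) * Qe q (m + 1) e =
        ∑ p ∈ Finset.HasAntidiagonal.antidiagonal (e 0), mo (Fin.cons ((p.1 : ℚ) - (α 0 : ℕ)) 0 : Fin (m + 1) → ℚ) *
          up (PowerSeries.coeff p.2 (Cser q m) *
            (mo (-(nexp (Fin.tail α))) * Qe q m (Fin.tail e))) := by
      rw [Qe, coeff_Bser, h1, Finset.sum_mul, Finset.mul_sum]
      refine Finset.sum_congr rfl fun p _ => ?_
      have h3 : (mo (Fin.cons ((p.1 : ℚ) - (α 0 : ℕ)) 0 : Fin (m + 1) → ℚ) : LR K (m + 1)) =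
          mo (Fin.cons (-(α 0 : ℚ)) 0 : Fin (m + 1) → ℚ) *
            mo (Fin.cons (p.1 : ℚ) 0 : Fin (m + 1) → ℚ) := by
        rw [mo_mul]
        congr 1
        funext k
        refine Fin.cases ?_ (fun j => ?_) k
        · simp; ring
        · simp
      rw [h3, map_mul, map_mul]
      ring
    rw [h2, map_sum]
    simp only [Lf_peel_nat]
    have h4 : (∑ p ∈ Finset.HasAntidiagonal.antidiagonal (e 0), if α 0 ≤ p.1 then
        Lf q m (Hc q m (p.1 - α 0) * (PowerSeries.coeff p.2 (Cser q m) *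
            (mo (-(nexp (Fin.tail α))) * Qe q m (Fin.tail e)))) else 0) =
        Lf q m ((∑ p ∈ Finset.HasAntidiagonal.antidiagonal (e 0), if α 0 ≤ p.1 then
          Hc q m (p.1 - α 0) * PowerSeries.coeff p.2 (Cser q m) else 0) *
            (mo (-(nexp (Fin.tail α))) * Qe q m (Fin.tail e))) := by
      rw [Finset.sum_mul, map_sum]
      refine Finset.sum_congr rfl fun p _ => ?_
      split_ifs
      · rw [mul_assoc]
      · rw [zero_mul, map_zero]
    have h5 : (∑ p ∈ Finset.HasAntidiagonal.antidiagonal (e 0), if α 0 ≤ p.1 then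
          Hc q m (p.1 - α 0) * PowerSeries.coeff p.2 (Cser q m) else 0) =
          if α 0 = e 0 then 1 else 0 := by
      rw [← Finset.sum_filter]
      by_cases h : α 0 ≤ e 0
      · have h6 : (∑ p ∈ Finset.HasAntidiagonal.antidiagonal (e 0) with α 0 ≤ p.1,
            Hc q m (p.1 - α 0) * PowerSeries.coeff p.2 (Cser q m)) =
            ∑ p ∈ Finset.HasAntidiagonal.antidiagonal (e 0 - α 0),
              PowerSeries.coeff p.1 (Hser q m) * PowerSeries.coeff p.2 (Cser q m) := by
          refine Finset.sum_nbij' (fun p => (p.1 - α 0, p.2)) (fun p => (p.1 + α 0, p.2))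
            ?_ ?_ ?_ ?_ ?_
          · rintro ⟨a, b⟩ hp
            rw [Finset.mem_filter, Finset.HasAntidiagonal.mem_antidiagonal] at hp
            rw [Finset.HasAntidiagonal.mem_antidiagonal]
            simp only at hp ⊢
            omega
          · rintro ⟨a, b⟩ hp
            rw [Finset.HasAntidiagonal.mem_antidiagonal] at hp
            rw [Finset.mem_filter, Finset.HasAntidiagonal.mem_antidiagonal]
            simp only at hp ⊢
            omega
          · rintro ⟨a, b⟩ hp
            rw [Finset.mem_filter, Finset.HasAntidiagonal.mem_antidiagonal] at hp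
            simp only at hp
            ext
            · show a - α 0 + α 0 = a
              omega
            · rfl
          · rintro ⟨a, b⟩ _
            ext
            · show a + α 0 - α 0 = a
              omega
            · rfl
          · rintro ⟨a, b⟩ _
            rfl
        rw [h6, ← PowerSeries.coeff_mul, Hser_mul_Cser, PowerSeries.coeff_one]
        by_cases h7 : α 0 = e 0
        · rw [if_pos h7, if_pos (by omega)]
        · rw [if_neg h7, if_neg (by omega)]
      · rw [if_neg (by omega), Finset.filter_false_of_mem, Finset.sum_empty]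
        rintro ⟨a, b⟩ hp
        rw [Finset.HasAntidiagonal.mem_antidiagonal] at hp
        simp only at hp ⊢
        omega
    rw [h4, h5]
    by_cases h8 : α 0 = e 0
    · rw [if_pos h8, one_mul, ih]
      by_cases h9 : Fin.tail α = Fin.tail e
      · rw [if_pos h9, if_pos]
        rw [← Fin.cons_self_tail α, ← Fin.cons_self_tail e, h8, h9]
      · rw [if_neg h9, if_neg]
        rintro rfl
        exact h9 rfl
    · rw [if_neg h8, zero_mul, map_zero, if_neg]
      rintro rfl
      exact h8 rfl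

/-! ### Homogeneity of the kernel -/

/-- the span of the monomials with natural exponents of sum `n` -/
noncomputable def Hom (K : Type*) [Field K] (m n : ℕ) : Submodule K (LR K m) :=
  Submodule.span K (mo '' {ν : Fin m → ℚ | ∃ b : Fin m → ℕ, ∑ k, b k = n ∧ ν = nexp b})

theorem mo_mem_Hom (b : Fin m → ℕ) : (mo (nexp b) : LR K m) ∈ Hom K m (∑ k, b k) :=
  Submodule.subset_span ⟨_, ⟨b, rfl, rfl⟩, rfl⟩

theorem Hom_induction {n : ℕ} {P : LR K m → Prop} {f : LR K m} (hf : f ∈ Hom K m n)
    (h0 : P 0) (hm : ∀ b : Fin m → ℕ, ∑ k, b k = n → P (mo (nexp b)))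
    (ha : ∀ f g, P f → P g → P (f + g)) (hs : ∀ (r : K) f, P f → P (r • f)) : P f := by
  refine Submodule.span_induction (p := fun f _ => P f) ?_ h0 (fun f g _ _ => ha f g)
    (fun r f _ => hs r f) hf
  rintro _ ⟨c, ⟨b, hb, rfl⟩, rfl⟩
  exact hm b hb

theorem one_mem_Hom : (1 : LR K m) ∈ Hom K m 0 := by
  have := mo_mem_Hom (K := K) (m := m) 0
  simp only [Pi.zero_apply, Finset.sum_const_zero] at this
  have h : (nexp (0 : Fin m → ℕ)) = 0 := by
    funext k
    simp [nexp]
  rwa [h, mo_zero] at this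

theorem mul_mem_Hom {a b : ℕ} {f g : LR K m} (hf : f ∈ Hom K m a) (hg : g ∈ Hom K m b) :
    f * g ∈ Hom K m (a + b) := by
  refine Hom_induction (P := fun f => f * g ∈ Hom K m (a + b)) hf ?_ ?_ ?_ ?_
  · simp
  · intro c hc
    refine Hom_induction (P := fun g => mo (nexp c) * g ∈ Hom K m (a + b)) hg ?_ ?_ ?_ ?_
    · simp
    · intro d hd
      rw [mo_mul]
      have h := mo_mem_Hom (K := K) (c + d)
      have h' : nexp (c + d) = nexp c + nexp d := by
        funext k
        simp [nexp]
      have h'' : ∑ k, (c + d) k = a + b := by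
        simp only [Pi.add_apply]
        rw [Finset.sum_add_distrib, hc, hd]
      rwa [h', h''] at h
    · intro f g hf hg
      rw [mul_add]
      exact Submodule.add_mem _ hf hg
    · intro r f hf
      rw [mul_smul_comm]
      exact Submodule.smul_mem _ _ hf
  · intro f g hf hg
    rw [add_mul]
    exact Submodule.add_mem _ hf hg
  · intro r f hf
    rw [smul_mul_assoc]
    exact Submodule.smul_mem _ _ hf

theorem zz_mem_Hom (i : Fin m) : (zz i : LR K m) ∈ Hom K m 1 := by
  have h := mo_mem_Hom (K := K) (m := m) (Pi.single i 1)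
  have h1 : nexp (Pi.single i 1 : Fin m → ℕ) = ei i := by
    funext k
    by_cases hk : k = i
    · subst hk
      simp [nexp, ei_self]
    · simp [nexp, ei_ne hk, Pi.single_eq_of_ne hk]
  have h2 : ∑ k, (Pi.single i 1 : Fin m → ℕ) k = 1 := by
    rw [Finset.sum_pi_single']
    simp
  rwa [h1, h2] at h

theorem zz_pow_mem_Hom (i : Fin m) (n : ℕ) : (zz i : LR K m) ^ n ∈ Hom K m n := by
  induction n with
  | zero => rw [pow_zero]; exact one_mem_Hom
  | succ n ih => rw [pow_succ]; exact mul_mem_Hom ih (zz_mem_Hom i)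

theorem up_mem_Hom {n : ℕ} {f : LR K m} (hf : f ∈ Hom K m n) : up f ∈ Hom K (m + 1) n := by
  refine Hom_induction (P := fun f => up f ∈ Hom K (m + 1) n) hf ?_ ?_ ?_ ?_
  · simp
  · intro b hb
    rw [up_mo]
    have h := mo_mem_Hom (K := K) (m := m + 1) (Fin.cons 0 b)
    have h1 : nexp (Fin.cons 0 b : Fin (m + 1) → ℕ) = Fin.cons 0 (nexp b) := by
      funext k
      refine Fin.cases ?_ (fun j => ?_) k <;> simp [nexp]
    have h2 : ∑ k, (Fin.cons 0 b : Fin (m + 1) → ℕ) k = n := by
      rw [Fin.sum_univ_succ]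
      simpa using hb
    rwa [h1, h2] at h
  · intro f g hf hg
    rw [map_add]
    exact Submodule.add_mem _ hf hg
  · intro r f hf
    rw [map_smul]
    exact Submodule.smul_mem _ _ hf

/-- graded series -/
def Good (F : PowerSeries (LR K m)) : Prop := ∀ n, PowerSeries.coeff n F ∈ Hom K m n

theorem Good.mul {F G : PowerSeries (LR K m)} (hF : Good F) (hG : Good G) : Good (F * G) := by
  intro n
  rw [PowerSeries.coeff_mul]
  refine Submodule.sum_mem _ fun p hp => ?_
  rw [Finset.HasAntidiagonal.mem_antidiagonal] at hp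
  rw [← hp]
  exact mul_mem_Hom (hF _) (hG _)

theorem Good.one : Good (1 : PowerSeries (LR K m)) := by
  intro n
  rw [PowerSeries.coeff_one]
  split_ifs with h
  · rw [h]; exact one_mem_Hom
  · exact Submodule.zero_mem _

theorem Good.prod {ι : Type*} (s : Finset ι) (F : ι → PowerSeries (LR K m)) (h : ∀ i, Good (F i)) :
    Good (∏ i ∈ s, F i) := by
  classical
  induction s using Finset.induction_on with
  | empty => rw [Finset.prod_empty]; exact Good.one
  | insert a s ha ih => rw [Finset.prod_insert ha]; exact (h a).mul ih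

theorem good_Bser (q : K) (m : ℕ) : Good (Bser q m) := by
  refine Good.mul ?_ (Good.prod _ _ fun j => ?_)
  · intro n
    rw [coeff_Eg]
    exact zz_pow_mem_Hom _ _
  · intro n
    rw [Ec, PowerSeries.coeff_mk]
    exact Submodule.smul_mem _ _ (zz_pow_mem_Hom _ _)

theorem Qe_mem (q : K) (e : Fin m → ℕ) : Qe q m e ∈ Hom K m (∑ k, e k) := by
  induction m with
  | zero =>
    rw [Qe, Fin.sum_univ_zero]
    exact one_mem_Hom
  | succ m ih =>
    rw [Qe, Fin.sum_univ_succ]
    exact mul_mem_Hom (good_Bser q m _) (up_mem_Hom (ih (Fin.tail e)))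

/-! ### The Cauchy identity -/

theorem nexp_injective : Function.Injective (nexp : (Fin m → ℕ) → (Fin m → ℚ)) := by
  intro a b h
  funext k
  have := congrFun h k
  simpa [nexp] using this

theorem coeff_mo_self (c : Fin m → ℚ) : (mo c : LR K m).coeff c = 1 := by
  rw [mo, AddMonoidAlgebra.coeff_single, Finsupp.single_eq_same]

theorem coeff_mo_ne {c d : Fin m → ℚ} (h : d ≠ c) : (mo c : LR K m).coeff d = 0 := by
  rw [mo, AddMonoidAlgebra.coeff_single, Finsupp.single_apply, if_neg h.symm]

/-- The dual expansion of `φ + Hom n` in the `FC`'s. -/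
theorem expand (q : K) {φ : Fin m → ℚ}
    (horth : ∀ a b : Fin m → ℕ, Lf q m (FC q (-(nexp a + φ)) * FC q (nexp b + φ)) =
      if a = b then 1 else 0)
    (hpoly : ∀ a : Fin m → ℕ, FC q (nexp a + φ) ∈ Submodule.span K
      (mo '' {ν : Fin m → ℚ | ∃ b : Fin m → ℕ, ∑ k, b k = ∑ k, a k ∧ ν = nexp b + φ}))
    (n : ℕ) (f : LR K m) (hf : f ∈ Hom K m n) :
    mo φ * f = ∑ a ∈ Finset.Nat.antidiagonalTuple m n,
      Lf q m (FC q (-(nexp a + φ)) * (mo φ * f)) • FC q (nexp a + φ) := by
  classical
  set ι := {a // a ∈ Finset.Nat.antidiagonalTuple m n} with hι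
  let M : Matrix ι ι K := fun a b => (FC q (nexp a.1 + φ)).coeff (nexp b.1 + φ)
  let N : Matrix ι ι K := fun a b => Lf q m (FC q (-(nexp a.1 + φ)) * mo (nexp b.1 + φ))
  have hexp : ∀ a : ι, FC q (nexp a.1 + φ) = ∑ b : ι, M a b • mo (nexp b.1 + φ) := by
    intro a
    have ha : ∑ k, a.1 k = n := Finset.Nat.mem_antidiagonalTuple.1 a.2
    have key : ∀ g ∈ Submodule.span K
        (mo '' {ν : Fin m → ℚ | ∃ b : Fin m → ℕ, ∑ k, b k = ∑ k, a.1 k ∧ ν = nexp b + φ}),
        g = ∑ b : ι, g.coeff (nexp b.1 + φ) • (mo (nexp b.1 + φ) : LR K m) := by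
      intro g hg
      induction hg using Submodule.span_induction with
      | mem x hx =>
        obtain ⟨_, ⟨b, hb, rfl⟩, rfl⟩ := hx
        rw [Finset.sum_eq_single (⟨b, Finset.Nat.mem_antidiagonalTuple.2 (hb.trans ha)⟩ : ι)]
        · rw [coeff_mo_self, one_smul]
        · intro c _ hc
          rw [coeff_mo_ne, zero_smul]
          intro h
          exact hc (Subtype.ext (nexp_injective (add_right_cancel h)))
        · intro h
          exact absurd (Finset.mem_univ _) h
      | zero => simp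
      | add x y _ _ hx hy =>
        conv_lhs => rw [hx, hy]
        rw [← Finset.sum_add_distrib]
        refine Finset.sum_congr rfl fun b _ => ?_
        rw [AddMonoidAlgebra.coeff_add, Finsupp.add_apply, add_smul]
      | smul r x _ hx =>
        conv_lhs => rw [hx]
        rw [Finset.smul_sum]
        refine Finset.sum_congr rfl fun b _ => ?_
        rw [AddMonoidAlgebra.coeff_smul, Finsupp.smul_apply, smul_eq_mul, mul_smul]
    exact key _ (hpoly a.1)
  have hNM : N * M.transpose = 1 := by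
    ext a b
    rw [Matrix.mul_apply]
    have h1 : Lf q m (FC q (-(nexp a.1 + φ)) * FC q (nexp b.1 + φ)) =
        ∑ c : ι, N a c * M.transpose c b := by
      conv_lhs => rw [hexp b]
      rw [Finset.mul_sum, map_sum]
      refine Finset.sum_congr rfl fun c _ => ?_
      rw [mul_smul_comm, map_smul, smul_eq_mul, mul_comm]
      rfl
    rw [← h1, horth, Matrix.one_apply]
    by_cases h : a = b
    · rw [if_pos h, if_pos (congrArg Subtype.val h)]
    · rw [if_neg h, if_neg (fun h' => h (Subtype.ext h'))]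
  have hMN : M.transpose * N = 1 := mul_eq_one_comm.1 hNM
  have hmono : ∀ b : ι, (mo (nexp b.1 + φ) : LR K m) = ∑ c : ι, N c b • FC q (nexp c.1 + φ) := by
    intro b
    have h1 : ∑ c : ι, N c b • FC q (nexp c.1 + φ) =
        ∑ a : ι, (M.transpose * N) a b • (mo (nexp a.1 + φ) : LR K m) := by
      have h2 : ∀ c : ι, N c b • FC q (nexp c.1 + φ) =
          ∑ a : ι, (M.transpose a c * N c b) • (mo (nexp a.1 + φ) : LR K m) := by
        intro c
        conv_lhs => rw [hexp c]
        rw [Finset.smul_sum]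
        refine Finset.sum_congr rfl fun a _ => ?_
        rw [smul_smul, mul_comm]
        rfl
      rw [Finset.sum_congr rfl fun c _ => h2 c, Finset.sum_comm]
      refine Finset.sum_congr rfl fun a _ => ?_
      rw [Matrix.mul_apply, Finset.sum_smul]
    rw [h1, hMN, Finset.sum_eq_single b]
    · rw [Matrix.one_apply_eq, one_smul]
    · intro a _ hab
      rw [Matrix.one_apply_ne hab, zero_smul]
    · intro h
      exact absurd (Finset.mem_univ _) h
  refine Hom_induction (P := fun f => mo φ * f = ∑ a ∈ Finset.Nat.antidiagonalTuple m n,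
      Lf q m (FC q (-(nexp a + φ)) * (mo φ * f)) • FC q (nexp a + φ)) hf ?_ ?_ ?_ ?_
  · simp
  · intro b hb
    have h1 : (mo φ : LR K m) * mo (nexp b) = mo (nexp b + φ) := by
      rw [mo_mul, add_comm]
    rw [h1]
    have h2 := hmono ⟨b, Finset.Nat.mem_antidiagonalTuple.2 hb⟩
    rw [← Finset.sum_coe_sort]
    exact h2
  · intro f g hf hg
    conv_lhs => rw [mul_add, hf, hg]
    rw [← Finset.sum_add_distrib]
    refine Finset.sum_congr rfl fun a _ => ?_
    rw [mul_add, mul_add, map_add, add_smul]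
  · intro r f hf
    conv_lhs => rw [mul_smul_comm, hf]
    rw [Finset.smul_sum]
    refine Finset.sum_congr rfl fun a _ => ?_
    rw [mul_smul_comm, mul_smul_comm, map_smul, smul_eq_mul, mul_smul]

/-- The Cauchy identity, relative to the orthogonality and the two support statements. -/
theorem cauchy_of (q : K) {φ : Fin m → ℚ}
    (horth : ∀ a b : Fin m → ℕ, Lf q m (FC q (-(nexp a + φ)) * FC q (nexp b + φ)) =
      if a = b then 1 else 0)
    (hpoly : ∀ a : Fin m → ℕ, FC q (nexp a + φ) ∈ Submodule.span K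
      (mo '' {ν : Fin m → ℚ | ∃ b : Fin m → ℕ, ∑ k, b k = ∑ k, a k ∧ ν = nexp b + φ}))
    (hneg : ∀ a : Fin m → ℕ, FC q (-(nexp a + φ)) ∈ Submodule.span K
      (mo '' {ν : Fin m → ℚ | ∃ b : Fin m → ℕ, ∑ k, b k = ∑ k, a k ∧ ν = -(nexp b + φ)}))
    (e : Fin m → ℕ) :
    mo φ * Qe q m e = ∑ a ∈ Finset.Nat.antidiagonalTuple m (∑ k, e k),
      (FC q (-(nexp a + φ))).coeff (-(nexp e + φ)) • FC q (nexp a + φ) := by
  have h1 := expand q horth hpoly (∑ k, e k) (Qe q m e) (Qe_mem q e)
  rw [h1]
  refine Finset.sum_congr rfl fun a _ => ?_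
  congr 1
  have key : ∀ g ∈ Submodule.span K
      (mo '' {ν : Fin m → ℚ | ∃ b : Fin m → ℕ, ∑ k, b k = ∑ k, a k ∧ ν = -(nexp b + φ)}),
      Lf q m (g * (mo φ * Qe q m e)) = g.coeff (-(nexp e + φ)) := by
    intro g hg
    induction hg using Submodule.span_induction with
    | mem x hx =>
      obtain ⟨_, ⟨b, hb, rfl⟩, rfl⟩ := hx
      rw [← mul_assoc, mo_mul, show -(nexp b + φ) + φ = -(nexp b) by abel, Lf_Qe]
      by_cases h : b = e
      · rw [if_pos h, h, coeff_mo_self]
      · rw [if_neg h, coeff_mo_ne]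
        intro h'
        exact h (nexp_injective (add_right_cancel (neg_injective h'))).symm
    | zero => simp
    | add x y _ _ hx hy =>
      rw [add_mul, map_add, hx, hy, AddMonoidAlgebra.coeff_add, Finsupp.add_apply]
    | smul r x _ hx =>
      rw [smul_mul_assoc, map_smul, hx, AddMonoidAlgebra.coeff_smul, Finsupp.smul_apply]
  exact key _ (hneg a)

end Pool.Agent.Lib.MP0e7911H31
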